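import Pool.Agent.X278.AV.ArtD

/-!
# The minimalist conjecture for Artin twists: the joint normal law, and the interchange of two limits

Let `F / ℚ` be a finite Galois extension with group `G`, `ρ_1, …, ρ_k` representations of `G`, `ρ_i : G → GL_{n_i}(ℂ)`, and
`σ_p` a Frobenius automorphism at a place of `F` over `p`, for the primes `p ∤ N`, `N ≠ 0`. For fixed `γ > π/2` and a curve
`E : y² = x³ + A x + B` put

`S_i(E; T) = ∑_{p ∤ 6 N (4 A³ + 27 B²)} log |det(1 - (a_p / p) ρ_i(σ_p) + (1 / p) ρ_i(σ_p)²)| · cos(γ u) / Γ(1 + u)`,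
`u = log p / T`,

the logarithm of the product of the local factors of `L(E, ρ_i, s)` at `1`, with a smooth weight instead of a cut-off
(absolutely convergent). We order the elliptic curves over `ℚ` by height and prove, with NO hypothesis on `L`-functions,

* the joint normal law of `(S_1, …, S_k)`: if first the height tends to infinity and then `T → ∞`, the sum
  `∑ c_i S_i(E; T)`, centred by an explicit sum `A_c(T)` over the primes and divided by `√(log T)`, is asymptotically normal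
  with variance `V_c = (1 / |G|) ∑_g (∑ c_i Re tr ρ_i(g))²`, for all real `c_i`; the exponential moments converge as well;
* `A_c(T) / log T → ½ ∑ c_i ν_i`, `ν_i = (1 / |G|) ∑_g Re tr ρ_i(g)²` (for irreducible `ρ_i` the Frobenius-Schur indicator:
  `1`, `0` or `-1` according as `ρ_i` is orthogonal, not self-dual, or symplectic), by Chebotarev's theorem; so the
  proportion `P_i(X, T; t)` of the curves of height at most `X` with `S_i(E; T) ≤ t log T` tends to `0` for `t < ν_i / 2`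
  and to `1` for `t > ν_i / 2`.

In the other order of the limits: for one curve `S_i(E; T) / log T` tends to the order `m_i(E)` of `L(E, ρ_i, s)` at
`s = 1` as `T → ∞`, if `L(E, ρ_i, s)` is meromorphic on `[1, 3/2]`; nothing is assumed on zeros. Hence, for every integer
`j` and every level `t` with `j < t < j + 1`, `t > ν_i / 2`,

* `m_i(E) ≤ j` for `100 %` of the curves IF AND ONLY IF the limits in `X` and in `T` of `P_i(X, T; t)` can be interchanged.

Granting that `m_i(E)` is the multiplicity of `ρ_i` in `E(F) ⊗ ℂ` (Birch and Swinnerton-Dyer) and with `(-1)^{m_i(E)}` as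
the root number, the rules of the minimalist conjecture for `ρ_i` are EQUIVALENT to the interchange of the two limits of
`P_i(X, T; t)` at any one level `t` in `(0, 1)` if `ν_i ≤ 0`, and at any one level `t` in `(1, 2)` if `ν_i = 1`.
-/

set_option autoImplicit false

open Filter Topology Asymptotics NumberField IsDedekindDomain WeierstrassCurve Matrix
open scoped TensorProduct

namespace Pool.Agent.Results.MP_775b3b_nt.JointNormalLaw

/-- The prime `p` does not divide `6 N (4 A³ + 27 B²)`. -/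
def Good (N : ℕ) (A B : ℤ) (p : ℕ) : Prop := ¬ (p : ℤ) ∣ 6 * N * (4 * A ^ 3 + 27 * B ^ 2)

/-- The number of affine points of `y² = x³ + A x + B` modulo `p`. -/
noncomputable def points (A B : ℤ) (p : ℕ) : ℕ :=
  Nat.card {P : ZMod p × ZMod p // P.2 ^ 2 = P.1 ^ 3 + (A : ZMod p) * P.1 + (B : ZMod p)}

/-- The weight `cos(γu) / Γ(1 + u)`. -/
noncomputable def weight (γ u : ℝ) : ℝ := Real.cos (γ * u) / Real.Gamma (1 + u)

/-- The curves of height at most `X`: the pairs `(A, B)` with `4 A³ + 27 B² ≠ 0`, such that no prime `p` satisfies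
both `p⁴ ∣ A` and `p⁶ ∣ B`, with `4 |A|³ ≤ X` and `27 B² ≤ X` (hence `|A|, |B| ≤ X`). -/
noncomputable def family (X : ℕ) : Finset (ℤ × ℤ) :=
  open Classical in
  ((Finset.Icc (-(X : ℤ)) X) ×ˢ (Finset.Icc (-(X : ℤ)) X)).filter fun E =>
    4 * E.1 ^ 3 + 27 * E.2 ^ 2 ≠ 0 ∧ (∀ p : ℕ, p.Prime → ¬ ((p : ℤ) ^ 4 ∣ E.1 ∧ (p : ℤ) ^ 6 ∣ E.2)) ∧
      4 * |E.1| ^ 3 ≤ X ∧ 27 * E.2 ^ 2 ≤ X

/-- The proportion of the curves of height at most `X` with a property. -/
noncomputable def proportion (X : ℕ) (P : ℤ × ℤ → Prop) : ℝ :=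
  open Classical in (((family X).filter P).card : ℝ) / (family X).card

/-- `P(X, T)` tends to `ℓ` if first `X → ∞` and then `T → ∞`. -/
def FirstX (P : ℕ → ℝ → ℝ) (ℓ : ℝ) : Prop := ∀ ε : ℝ, 0 < ε → ∀ᶠ T : ℝ in atTop, ∀ᶠ X : ℕ in atTop, |P X T - ℓ| < ε

/-- `P(X, T)` tends to `ℓ` if first `T → ∞` and then `X → ∞`. -/
def FirstT (P : ℕ → ℝ → ℝ) (ℓ : ℝ) : Prop := ∀ ε : ℝ, 0 < ε → ∀ᶠ X : ℕ in atTop, ∀ᶠ T : ℝ in atTop, |P X T - ℓ| < ε

/-- The two limits of `P(X, T)` can be interchanged. -/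
def Interchange (P : ℕ → ℝ → ℝ) : Prop := ∃ ℓ : ℝ, FirstX P ℓ ∧ FirstT P ℓ

/-- `Φ(v)`, the distribution function of the standard normal law. -/
noncomputable def Phi (v : ℝ) : ℝ := (ProbabilityTheory.gaussianReal 0 1).real (Set.Iic v)

section

variable {F : Type} [Field F] [NumberField F]

/-- `σ` is an arithmetic Frobenius automorphism of `F` at a place over `p`. -/
def IsFrobenius (σ : F ≃ₐ[ℚ] F) (p : ℕ) : Prop :=
  ∃ u : HeightOneSpectrum (𝓞 F), (p : 𝓞 F) ∈ u.asIdeal ∧ ∀ y : 𝓞 F, σ • y - y ^ p ∈ u.asIdeal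

section

variable {n : ℕ} (N : ℕ) (ρ : (F ≃ₐ[ℚ] F) →* Matrix (Fin n) (Fin n) ℂ) (σ : Nat.Primes → F ≃ₐ[ℚ] F)

open Classical in
/-- `det(1 - a_p p^{-s} ρ(σ_p) + p^{1 - 2 s} ρ(σ_p)²)`, `a_p = p - #(affine points)`, for `p ∤ 6 N (4 A³ + 27 B²)`;
`1` otherwise. -/
noncomputable def localDet (A B : ℤ) (s : ℂ) (p : Nat.Primes) : ℂ :=
  if Good N A B p then
    (1 - ((((p : ℕ) : ℂ) - points A B p) * ((p : ℕ) : ℂ) ^ (-s)) • ρ (σ p) +
      ((p : ℕ) : ℂ) ^ (1 - 2 * s) • ρ (σ p) ^ 2).det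
  else 1

/-- `S(E; T)`, the sum of `log |det(1 - (a_p / p) ρ(σ_p) + (1 / p) ρ(σ_p)²)| cos(γu) / Γ(1 + u)`, `u = log p / T`. -/
noncomputable def S (γ : ℝ) (E : ℤ × ℤ) (T : ℝ) : ℝ :=
  ∑' p : Nat.Primes, Real.log ‖localDet N ρ σ E.1 E.2 1 p‖ * weight γ (Real.log (p : ℕ) / T)

/-- `L` is the incomplete twisted `L`-series `L(E, ρ, s)` for `Re s > 3/2`. -/
def IsLSeries (A B : ℤ) (L : ℂ → ℂ) : Prop :=
  ∀ s : ℂ, 3 / 2 < s.re → HasProd (fun p => (localDet N ρ σ A B s p)⁻¹) (L s)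

/-- `P(X, T; t)`, the proportion of the curves of height at most `X` with `S(E; T) ≤ t log T`. -/
noncomputable def level (γ t : ℝ) (X : ℕ) (T : ℝ) : ℝ := proportion X fun E => S N ρ σ γ E T ≤ t * Real.log T

/-- `ν`, the average of `Re tr ρ(g)²` over the Galois group. -/
noncomputable def index : ℝ := (∑ g : F ≃ₐ[ℚ] F, ((ρ g ^ 2).trace).re) / Nat.card (F ≃ₐ[ℚ] F)

end

section

variable {k : ℕ} {n : Fin k → ℕ} (N : ℕ) (ρ : ∀ i, (F ≃ₐ[ℚ] F) →* Matrix (Fin (n i)) (Fin (n i)) ℂ)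
  (σ : Nat.Primes → F ≃ₐ[ℚ] F) (c : Fin k → ℝ)

/-- `V_c`, the average of `(∑ c_i Re tr ρ_i(g))²` over the Galois group. -/
noncomputable def variance : ℝ := (∑ g : F ≃ₐ[ℚ] F, (∑ i, c i * ((ρ i g).trace).re) ^ 2) / Nat.card (F ≃ₐ[ℚ] F)

open Classical in
/-- The term `(∑ c_i Re tr ρ_i(σ_p)²) / (2 p) · cos(γu) / Γ(1 + u)`, `u = log p / T`, for `p ∤ N`; `0` otherwise. -/
noncomputable def centreTerm (γ T : ℝ) (p : Nat.Primes) : ℝ :=
  if (p : ℕ) ∣ N then 0 else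
    (∑ i, c i * ((ρ i (σ p) ^ 2).trace).re) / (2 * (p : ℕ)) * weight γ (Real.log (p : ℕ) / T)

/-- `A_c(T)`. -/
noncomputable def centre (γ T : ℝ) : ℝ := ∑' p : Nat.Primes, centreTerm N ρ σ c γ T p

/-- `Y_c(E; T) = (∑ c_i S_i(E; T) - A_c(T)) / √(log T)`. -/
noncomputable def normalised (γ T : ℝ) (E : ℤ × ℤ) : ℝ :=
  (∑ i, c i * S N (ρ i) σ γ E T - centre N ρ σ c γ T) / √(Real.log T)

end

end

section

variable {F : Type} [Field F] [NumberField F] [DecidableEq F] {n : ℕ}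

/-- The curve `y² = x³ + A x + B`. -/
def curve (A B : ℤ) : WeierstrassCurve ℚ := ⟨0, 0, 0, (A : ℚ), (B : ℚ)⟩

/-- The action of `σ` on `ℂ ⊗ E(F)`. -/
noncomputable def act (A B : ℤ) (σ : F ≃ₐ[ℚ] F) :
    ℂ ⊗[ℤ] ((curve A B).baseChange F).toAffine.Point →ₗ[ℂ] ℂ ⊗[ℤ] ((curve A B).baseChange F).toAffine.Point :=
  (Affine.Point.map (W' := (curve A B).toAffine) (σ : F →ₐ[ℚ] F)).toIntLinearMap.baseChange ℂ

/-- `m_ρ(E)`, the dimension of `Hom_G(ρ, ℂ ⊗ E(F))`. -/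
noncomputable def multiplicity (ρ : (F ≃ₐ[ℚ] F) →* Matrix (Fin n) (Fin n) ℂ) (A B : ℤ) : ℕ :=
  Set.finrank ℂ {f : (Fin n → ℂ) →ₗ[ℂ] ℂ ⊗[ℤ] ((curve A B).baseChange F).toAffine.Point |
    ∀ (σ : F ≃ₐ[ℚ] F) (v : Fin n → ℂ), f (ρ σ *ᵥ v) = act A B σ (f v)}

end

open Pool.Agent.X278.AV Pool.Agent.X278.OP

theorem good_iff (N : ℕ) (A B : ℤ) (p : Nat.Primes) : Good N A B p ↔ ¬ (p : ℕ) ∣ N ∧ GoodQ A B p := by
  unfold Good GoodQ
  rw [← ZMod.intCast_zmod_eq_zero_iff_dvd, ← ZMod.natCast_eq_zero_iff]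
  push_cast
  constructor
  · intro h
    refine ⟨fun h1 => h ?_, fun h1 => h ?_⟩
    · rw [h1]; ring
    · have e1 : (6 : ZMod p) * N * (4 * (A : ZMod p) ^ 3 + 27 * (B : ZMod p) ^ 2) =
          N * (6 * (4 * (A : ZMod p) ^ 3 + 27 * (B : ZMod p) ^ 2)) := by ring
      rw [e1, h1, mul_zero]
  · rintro ⟨h1, h2⟩ h3
    have e1 : (6 : ZMod p) * N * (4 * (A : ZMod p) ^ 3 + 27 * (B : ZMod p) ^ 2) =
        N * (6 * (4 * (A : ZMod p) ^ 3 + 27 * (B : ZMod p) ^ 2)) := by ring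
    rw [e1] at h3
    exact mul_ne_zero h1 h2 h3

section

variable {F : Type} [Field F] [NumberField F] {n : ℕ}

theorem localDet_inv {N : ℕ} {ρ : (F ≃ₐ[ℚ] F) →* Matrix (Fin n) (Fin n) ℂ} {σ : Nat.Primes → F ≃ₐ[ℚ] F}
    {μ : Nat.Primes → Fin n → ℂ} (h0 : ∀ p : Nat.Primes, (p : ℕ) ∣ N → ∀ j, μ p j = 0)
    (h1 : ∀ p : Nat.Primes, ¬ (p : ℕ) ∣ N → ∀ x y : ℂ, (1 - (x + y) • ρ (σ p) + (x * y) • ρ (σ p) ^ 2).det =
      ∏ j, ((1 - x * μ p j) * (1 - y * μ p j))) (A B : ℤ) (s : ℂ) (p : Nat.Primes) :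
    (localDet N ρ σ A B s p)⁻¹ = Pool.Agent.X287.CR.fac Pool.Agent.X287.CR.pq (tq A B μ) s p := by
  rw [fac_tq]
  unfold localDet
  by_cases h : Good N A B p
  · obtain ⟨a1, a2⟩ := (good_iff N A B p).1 h
    rw [if_pos h]
    obtain ⟨b1, b2⟩ := qal_add_mul a2 s
    have e1 : points A B p = ptsQ A B p := rfl
    rw [e1, ← b1, ← b2, h1 p a1]
  · rw [if_neg h, inv_one]
    by_cases hp : (p : ℕ) ∣ N
    · simp [h0 p hp]
    · have h2 : ¬ GoodQ A B p := fun h3 => h ((good_iff N A B p).2 ⟨hp, h3⟩)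
      unfold qal
      simp [h2]

theorem log_localDet {N : ℕ} {ρ : (F ≃ₐ[ℚ] F) →* Matrix (Fin n) (Fin n) ℂ} {σ : Nat.Primes → F ≃ₐ[ℚ] F}
    {μ : Nat.Primes → Fin n → ℂ} (hμ : ∀ p j, ‖μ p j‖ ≤ 1) (h0 : ∀ p : Nat.Primes, (p : ℕ) ∣ N → ∀ j, μ p j = 0)
    (h1 : ∀ p : Nat.Primes, ¬ (p : ℕ) ∣ N → ∀ x y : ℂ, (1 - (x + y) • ρ (σ p) + (x * y) • ρ (σ p) ^ 2).det =
      ∏ j, ((1 - x * μ p j) * (1 - y * μ p j))) (A B : ℤ) (p : Nat.Primes) :
    Real.log ‖localDet N ρ σ A B 1 p‖ = fA μ p (red p ![A, B]) := by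
  by_cases h : Good N A B p
  · obtain ⟨a1, a2⟩ := (good_iff N A B p).1 h
    rw [fA_eq a2 hμ]
    unfold localDet
    rw [if_pos h]
    obtain ⟨b1, b2⟩ := qal_add_mul a2 1
    have e1 : points A B p = ptsQ A B p := rfl
    rw [e1, ← b1, ← b2, h1 p a1]
  · have e1 : localDet N ρ σ A B 1 p = 1 := by
      unfold localDet
      rw [if_neg h]
    rw [e1, norm_one, Real.log_one]
    by_cases hp : (p : ℕ) ∣ N
    · rw [fA_zero (h0 p hp)]
    · rw [fA_bad (fun h3 => h ((good_iff N A B p).2 ⟨hp, h3⟩))]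

end

theorem family_eq (X : ℕ) : family X = (Fam eH ZH (abH X)).map (finTwoArrowEquiv ℤ).toEmbedding := by
  classical
  ext E
  rw [Finset.mem_map_equiv]
  unfold family Fam
  rw [Finset.mem_filter, Finset.mem_filter, mem_Box, Finset.mem_product, Finset.mem_Icc, Finset.mem_Icc]
  have e0 : (finTwoArrowEquiv ℤ).symm E 0 = E.1 := rfl
  have e1 : (finTwoArrowEquiv ℤ).symm E 1 = E.2 := rfl
  have h1 : (∀ j, |(finTwoArrowEquiv ℤ).symm E j| ≤ (abH X j : ℤ)) ↔ (4 * |E.1| ^ 3 ≤ X ∧ 27 * E.2 ^ 2 ≤ (X : ℤ)) := by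
    rw [Fin.forall_fin_two, e0, e1]
    have h2 : (|E.1| ≤ (abH X 0 : ℤ)) ↔ 4 * |E.1| ^ 3 ≤ (X : ℤ) := by
      have h3 : abH X 0 = aH X := rfl
      rw [h3, Int.abs_eq_natAbs]
      have := le_aH (X := X) (n := E.1.natAbs)
      exact_mod_cast this
    have h4 : (|E.2| ≤ (abH X 1 : ℤ)) ↔ 27 * E.2 ^ 2 ≤ (X : ℤ) := by
      have h3 : abH X 1 = bH X := rfl
      rw [h3, ← sq_abs E.2, Int.abs_eq_natAbs]
      have := le_bH (X := X) (n := E.2.natAbs)
      exact_mod_cast this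
    rw [h2, h4]
  have h2 : Pool.Agent.X278.AV.Min eH ((finTwoArrowEquiv ℤ).symm E) ↔
      (∀ p : ℕ, p.Prime → ¬ ((p : ℤ) ^ 4 ∣ E.1 ∧ (p : ℤ) ^ 6 ∣ E.2)) := by
    unfold Pool.Agent.X278.AV.Min
    refine forall_congr' fun p => forall_congr' fun _ => not_congr ?_
    rw [Fin.forall_fin_two, e0, e1]
    rfl
  have h3 : ZH ((finTwoArrowEquiv ℤ).symm E) ↔ 4 * E.1 ^ 3 + 27 * E.2 ^ 2 = 0 := Iff.rfl
  rw [h1, h2, h3]
  constructor
  · rintro ⟨-, a1, a2, a3⟩
    exact ⟨a3, a2, a1⟩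
  · rintro ⟨⟨a1, a2⟩, a3, a4⟩
    have b1 : |E.1| ≤ (X : ℤ) := by
      have h0 := abs_nonneg E.1
      have : |E.1| ≤ |E.1| ^ 3 := by
        rcases h0.eq_or_lt with h | h
        · rw [← h]; norm_num
        · have : 1 ≤ |E.1| := h
          nlinarith [mul_nonneg h0 h0]
      nlinarith
    have b2 : |E.2| ≤ (X : ℤ) := by
      have h0 := abs_nonneg E.2
      have h5 := sq_abs E.2
      have : |E.2| ≤ |E.2| ^ 2 := by
        rcases h0.eq_or_lt with h | h
        · rw [← h]; norm_num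
        · have : 1 ≤ |E.2| := h
          nlinarith
      nlinarith
    exact ⟨⟨abs_le.1 b1, abs_le.1 b2⟩, a4, a3, a1, a2⟩

theorem card_eq (X : ℕ) : (family X).card = (Fam eH ZH (abH X)).card := by
  rw [family_eq, Finset.card_map]

theorem family_ne : ∀ᶠ X in atTop, (family X).Nonempty := by
  filter_upwards [fam_ne dataH] with X hX
  rw [← Finset.card_pos, card_eq]
  exact hX.card_pos

theorem disc_of_mem {X : ℕ} {E : ℤ × ℤ} (h : E ∈ family X) : 4 * E.1 ^ 3 + 27 * E.2 ^ 2 ≠ 0 := by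
  classical
  unfold family at h
  exact (Finset.mem_filter.1 h).2.1


theorem prop_eq (X : ℕ) (P : ℤ × ℤ → Prop) : proportion X P =
    (open Classical in (((Fam eH ZH (abH X)).filter fun x : Fin 2 → ℤ => P (x 0, x 1)).card : ℝ) /
      (Fam eH ZH (abH X)).card) := by
  classical
  unfold proportion
  rw [card_eq, family_eq, Finset.filter_map, Finset.card_map]
  congr 2

theorem prop_mono (X : ℕ) {P Q : ℤ × ℤ → Prop} (h : ∀ E ∈ family X, P E → Q E) : proportion X P ≤ proportion X Q := by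
  classical
  unfold proportion
  gcongr
  rename_i E hE
  exact h E hE

theorem prop_congr (X : ℕ) {P Q : ℤ × ℤ → Prop} (h : ∀ E ∈ family X, (P E ↔ Q E)) : proportion X P = proportion X Q :=
  le_antisymm (prop_mono X fun E hE => (h E hE).1) (prop_mono X fun E hE => (h E hE).2)

theorem prop_01 (X : ℕ) (P : ℤ × ℤ → Prop) : 0 ≤ proportion X P ∧ proportion X P ≤ 1 := by
  classical
  unfold proportion
  refine ⟨by positivity, div_le_one_of_le₀ ?_ (Nat.cast_nonneg _)⟩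
  exact_mod_cast Finset.card_filter_le _ _

theorem firstX_unique {P : ℕ → ℝ → ℝ} {a b : ℝ} (ha : FirstX P a) (hb : FirstX P b) : a = b := by
  by_contra h
  have h1 : 0 < |a - b| / 2 := by
    have := abs_pos.2 (sub_ne_zero.2 h)
    linarith
  obtain ⟨T, h2, h3⟩ := ((ha _ h1).and (hb _ h1)).exists
  obtain ⟨X, h4, h5⟩ := (h2.and h3).exists
  have h6 : |a - b| ≤ |P X T - a| + |P X T - b| := by
    rw [abs_sub_comm (P X T) a]
    have := abs_sub_le a (P X T) b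
    exact this
  linarith

theorem firstT_iff {P : ℕ → ℝ → ℝ} {r : ℕ → ℝ} (hr : ∀ X, Tendsto (P X) atTop (𝓝 (r X))) (ℓ : ℝ) :
    Tendsto r atTop (𝓝 ℓ) ↔ FirstT P ℓ := by
  constructor
  · intro h ε hε
    filter_upwards [(Metric.tendsto_nhds.1 h) ε hε] with X hX
    rw [Real.dist_eq] at hX
    exact ((hr X).sub_const ℓ).abs.eventually_lt_const hX
  · intro h
    rw [Metric.tendsto_nhds]
    intro ε hε
    filter_upwards [h (ε / 2) (by positivity)] with X hX
    have h2 : |r X - ℓ| ≤ ε / 2 := le_of_tendsto ((hr X).sub_const ℓ).abs (hX.mono fun T hT => hT.le)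
    rw [Real.dist_eq]
    linarith

theorem gauss_scale {V : NNReal} (hV : V ≠ 0) (v : ℝ) :
    (ProbabilityTheory.gaussianReal 0 V).real (Set.Iic (v * √(V : ℝ))) = Phi v := by
  have hV0 : (0 : ℝ) < V := by
    have : 0 < V := pos_iff_ne_zero.2 hV
    exact_mod_cast this
  have hs : 0 < √(V : ℝ) := Real.sqrt_pos.2 hV0
  have h1 := ProbabilityTheory.gaussianReal_map_const_mul (μ := 0) (v := 1) (√(V : ℝ))
  have h2 : NNReal.mk (√(V : ℝ) ^ 2) (sq_nonneg _) * 1 = V := by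
    rw [mul_one]
    exact NNReal.coe_injective (Real.sq_sqrt hV0.le)
  rw [h2, mul_zero] at h1
  unfold Phi MeasureTheory.Measure.real
  rw [← h1, MeasureTheory.Measure.map_apply (by fun_prop) measurableSet_Iic]
  congr 2
  ext x
  simp only [Set.mem_preimage, Set.mem_Iic]
  rw [mul_comm]
  exact mul_le_mul_iff_left₀ hs

/-- from a normal law to the levels -/
theorem levels_of {f : ℤ × ℤ → ℝ → ℝ} {a : ℝ → ℝ} {κ V : ℝ}
    (h : ∀ v : ℝ, FirstX (fun X T => proportion X fun E => (f E T - a T) / √(Real.log T) ≤ v * √V) (Phi v))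
    (ha : Tendsto (fun T : ℝ => a T / Real.log T) atTop (𝓝 κ)) (t : ℝ) :
    (t < κ → FirstX (fun X T => proportion X fun E => f E T ≤ t * Real.log T) 0) ∧
    (κ < t → FirstX (fun X T => proportion X fun E => f E T ≤ t * Real.log T) 1) := by
  have hPhi1 : Tendsto Phi atTop (𝓝 1) := by
    have h1 := ProbabilityTheory.tendsto_cdf_atTop (ProbabilityTheory.gaussianReal 0 1)
    refine h1.congr fun x => ?_
    rw [ProbabilityTheory.cdf_eq_real]
    rfl
  have hPhi0 : Tendsto Phi atBot (𝓝 0) := by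
    have h1 := ProbabilityTheory.tendsto_cdf_atBot (ProbabilityTheory.gaussianReal 0 1)
    refine h1.congr fun x => ?_
    rw [ProbabilityTheory.cdf_eq_real]
    rfl
  have hlog : Tendsto (fun T : ℝ => √(Real.log T)) atTop atTop := Real.tendsto_sqrt_atTop.comp Real.tendsto_log_atTop
  have hsub : Tendsto (fun T : ℝ => t - a T / Real.log T) atTop (𝓝 (t - κ)) := ha.const_sub t
  have hnorm : ∀ (T : ℝ), 1 < T → ∀ (E : ℤ × ℤ) (u : ℝ), (f E T ≤ t * Real.log T ↔
      (f E T - a T) / √(Real.log T) ≤ √(Real.log T) * (t - a T / Real.log T)) := by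
    intro T hT E u
    have hl : 0 < Real.log T := Real.log_pos hT
    have hs : 0 < √(Real.log T) := Real.sqrt_pos.2 hl
    have hss : √(Real.log T) * √(Real.log T) = Real.log T := Real.mul_self_sqrt hl.le
    have e1 : √(Real.log T) * (t - a T / Real.log T) * √(Real.log T) = t * Real.log T - a T := by
      rw [mul_right_comm, hss]
      field_simp
    rw [div_le_iff₀ hs, e1]
    constructor <;> intro h <;> linarith
  constructor
  · intro ht ε hε
    obtain ⟨v, hv⟩ := ((Metric.tendsto_nhds.1 hPhi0) (ε / 2) (by positivity)).exists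
    rw [Real.dist_eq] at hv
    have h2 : Tendsto (fun T : ℝ => √(Real.log T) * (t - a T / Real.log T)) atTop atBot :=
      hlog.atTop_mul_neg (sub_neg.2 ht) hsub
    filter_upwards [h v (ε / 2) (by positivity), h2.eventually_le_atBot (v * √V), eventually_gt_atTop (1 : ℝ)]
      with T h3 h4 h5
    filter_upwards [h3] with X h6
    have h7 : proportion X (fun E => f E T ≤ t * Real.log T) ≤
        proportion X (fun E => (f E T - a T) / √(Real.log T) ≤ v * √V) :=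
      prop_mono X fun E _ hd => ((hnorm T h5 E 0).1 hd).trans h4
    have h8 := (prop_01 X (fun E => f E T ≤ t * Real.log T)).1
    rw [abs_lt] at h6 hv ⊢
    constructor <;> linarith [h6.1, h6.2, hv.1, hv.2]
  · intro ht ε hε
    obtain ⟨v, hv⟩ := ((Metric.tendsto_nhds.1 hPhi1) (ε / 2) (by positivity)).exists
    rw [Real.dist_eq] at hv
    have h2 : Tendsto (fun T : ℝ => √(Real.log T) * (t - a T / Real.log T)) atTop atTop :=
      hlog.atTop_mul_pos (sub_pos.2 ht) hsub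
    filter_upwards [h v (ε / 2) (by positivity), h2.eventually_ge_atTop (v * √V), eventually_gt_atTop (1 : ℝ)]
      with T h3 h4 h5
    filter_upwards [h3] with X h6
    have h7 : proportion X (fun E => (f E T - a T) / √(Real.log T) ≤ v * √V) ≤
        proportion X (fun E => f E T ≤ t * Real.log T) :=
      prop_mono X fun E _ hd => (hnorm T h5 E 0).2 (hd.trans h4)
    have h8 := (prop_01 X (fun E => f E T ≤ t * Real.log T)).2
    rw [abs_lt] at h6 hv ⊢
    constructor <;> linarith [h6.1, h6.2, hv.1, hv.2]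

section

variable {F : Type} [Field F] [NumberField F] {k : ℕ} {n : Fin k → ℕ} {N : ℕ}
  {ρ : ∀ i, (F ≃ₐ[ℚ] F) →* Matrix (Fin (n i)) (Fin (n i)) ℂ} {σ : Nat.Primes → F ≃ₐ[ℚ] F}
  {μ : ∀ i, Nat.Primes → Fin (n i) → ℂ}

/-- the eigenvalues of the matrices `ρ_i(σ_p)` -/
structure Eig (N : ℕ) (ρ : ∀ i, (F ≃ₐ[ℚ] F) →* Matrix (Fin (n i)) (Fin (n i)) ℂ) (σ : Nat.Primes → F ≃ₐ[ℚ] F)
    (μ : ∀ i, Nat.Primes → Fin (n i) → ℂ) : Prop where
  bd : ∀ i p j, ‖μ i p j‖ ≤ 1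
  zero : ∀ (i) (p : Nat.Primes), (p : ℕ) ∣ N → ∀ j, μ i p j = 0
  tr : ∀ (i) (p : Nat.Primes), ¬ (p : ℕ) ∣ N → (ρ i (σ p)).trace = ∑ j, μ i p j
  tr2 : ∀ (i) (p : Nat.Primes), ¬ (p : ℕ) ∣ N → (ρ i (σ p) ^ 2).trace = ∑ j, μ i p j ^ 2
  det : ∀ (i) (p : Nat.Primes), ¬ (p : ℕ) ∣ N → ∀ x y : ℂ,
    (1 - (x + y) • ρ i (σ p) + (x * y) • ρ i (σ p) ^ 2).det = ∏ j, ((1 - x * μ i p j) * (1 - y * μ i p j))

theorem exists_eig (N : ℕ) (ρ : ∀ i, (F ≃ₐ[ℚ] F) →* Matrix (Fin (n i)) (Fin (n i)) ℂ)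
    (σ : Nat.Primes → F ≃ₐ[ℚ] F) : ∃ μ : ∀ i, Nat.Primes → Fin (n i) → ℂ, Eig N ρ σ μ := by
  choose μ h1 h2 h3 using fun i => exists_mu2 N (ρ i) σ
  exact ⟨μ, h1, h2, fun i p hp => (h3 i p hp).1, fun i p hp => (h3 i p hp).2.1, fun i p hp => (h3 i p hp).2.2⟩

/-- the weights -/
def wJ (c : Fin k → ℝ) (x : Σ i, Fin (n i)) : ℝ := c x.1

/-- all eigenvalues -/
def MJ (μ : ∀ i, Nat.Primes → Fin (n i) → ℂ) (p : Nat.Primes) (x : Σ i, Fin (n i)) : ℂ := μ x.1 p x.2

theorem fW_J (c : Fin k → ℝ) (μ : ∀ i, Nat.Primes → Fin (n i) → ℂ) (p : Nat.Primes) (r : Fin 2 → ZMod p) :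
    fW (wJ c) (MJ μ) p r = ∑ i, c i * fA (μ i) p r := by
  unfold fW fA
  rw [Fintype.sum_sigma]
  refine Finset.sum_congr rfl fun i _ => ?_
  rw [Finset.mul_sum]
  rfl

/-- the class functions -/
noncomputable def Phi1 (ρ : ∀ i, (F ≃ₐ[ℚ] F) →* Matrix (Fin (n i)) (Fin (n i)) ℂ) (c : Fin k → ℝ) (g : F ≃ₐ[ℚ] F) : ℝ :=
  ∑ i, c i * (((ρ i g ^ 2).trace).re / 2)

/-- the class functions -/
noncomputable def Phi2 (ρ : ∀ i, (F ≃ₐ[ℚ] F) →* Matrix (Fin (n i)) (Fin (n i)) ℂ) (c : Fin k → ℝ) (g : F ≃ₐ[ℚ] F) : ℝ :=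
  (∑ i, c i * ((ρ i g).trace).re) ^ 2

theorem kap_J (H : Eig N ρ σ μ) (c : Fin k → ℝ) : kapW (wJ c) (MJ μ) = clF N σ (Phi1 ρ c) := by
  funext p
  unfold kapW clF Phi1
  rw [Fintype.sum_sigma]
  by_cases hp : (p : ℕ) ∣ N
  · rw [if_pos hp]
    refine Finset.sum_eq_zero fun i _ => Finset.sum_eq_zero fun j _ => ?_
    have : MJ μ p ⟨i, j⟩ = 0 := H.zero i p hp j
    rw [this]
    simp
  · rw [if_neg hp]
    refine Finset.sum_congr rfl fun i _ => ?_
    rw [H.tr2 i p hp, Complex.re_sum, Finset.sum_div, Finset.mul_sum]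
    rfl

theorem nu_J (H : Eig N ρ σ μ) (c : Fin k → ℝ) : nuW (wJ c) (MJ μ) = clF N σ (Phi2 ρ c) := by
  funext p
  unfold nuW clF Phi2
  rw [Fintype.sum_sigma]
  by_cases hp : (p : ℕ) ∣ N
  · rw [if_pos hp]
    have e1 : ∑ i, ∑ j, wJ c ⟨i, j⟩ * (MJ μ p ⟨i, j⟩).re = 0 := by
      refine Finset.sum_eq_zero fun i _ => Finset.sum_eq_zero fun j _ => ?_
      have : MJ μ p ⟨i, j⟩ = 0 := H.zero i p hp j
      rw [this]
      simp
    rw [e1]
    norm_num
  · rw [if_neg hp]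
    congr 1
    refine Finset.sum_congr rfl fun i _ => ?_
    rw [H.tr i p hp, Complex.re_sum, Finset.mul_sum]
    rfl

theorem S_term (H : Eig N ρ σ μ) (i : Fin k) (γ : ℝ) (x : Fin 2 → ℤ) (T : ℝ) (p : Nat.Primes) :
    Real.log ‖localDet N (ρ i) σ (x 0) (x 1) 1 p‖ * weight γ (Real.log (p : ℕ) / T) =
      fA (μ i) p (red p x) * (Real.cos (γ * (Real.log (p : ℕ) / T)) / Real.Gamma (1 + Real.log (p : ℕ) / T)) := by
  rw [log_localDet (H.bd i) (H.zero i) (H.det i)]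
  have : ![x 0, x 1] = x := by
    funext j
    fin_cases j <;> rfl
  rw [this]
  rfl

theorem S_eq (H : Eig N ρ σ μ) (i : Fin k) (γ : ℝ) (x : Fin 2 → ℤ) {T : ℝ} (hT : 0 < T) :
    (Summable fun p : Nat.Primes => |fA (μ i) p (red p x) *
      (Real.cos (γ * (Real.log (p : ℕ) / T)) / Real.Gamma (1 + Real.log (p : ℕ) / T))|) ∧
    S N (ρ i) σ γ (x 0, x 1) T = ∑' p : Nat.Primes, fA (μ i) p (red p x) *
      (Real.cos (γ * (Real.log (p : ℕ) / T)) / Real.Gamma (1 + Real.log (p : ℕ) / T)) := by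
  refine ⟨(re_SS (sysA (H.bd i)) γ hT x).1, ?_⟩
  unfold S
  exact tsum_congr fun p => S_term H i γ x T p

theorem comb_eq (H : Eig N ρ σ μ) (c : Fin k → ℝ) (γ : ℝ) (x : Fin 2 → ℤ) {T : ℝ} (hT : 0 < T) :
    ∑ i, c i * S N (ρ i) σ γ (x 0, x 1) T =
      SmG (fun p : Nat.Primes => ((p : ℕ) : ℝ)) (fun p (x : Fin 2 → ℤ) => fW (wJ c) (MJ μ) p (red p x)) γ T x := by
  unfold SmG
  have e1 : ∀ p : Nat.Primes, wr γ (Real.log (p : ℕ) / T) * fW (wJ c) (MJ μ) p (red p x) =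
      ∑ i, c i * (fA (μ i) p (red p x) *
        (Real.cos (γ * (Real.log (p : ℕ) / T)) / Real.Gamma (1 + Real.log (p : ℕ) / T))) := by
    intro p
    rw [fW_J, Finset.mul_sum]
    refine Finset.sum_congr rfl fun i _ => ?_
    unfold wr
    ring
  rw [tsum_congr e1, Summable.tsum_finsetSum fun i _ => ((S_eq H i γ x hT).1.of_abs.mul_left (c i))]
  refine Finset.sum_congr rfl fun i _ => ?_
  rw [tsum_mul_left, (S_eq H i γ x hT).2]

theorem centre_eq (N : ℕ) (ρ : ∀ i, (F ≃ₐ[ℚ] F) →* Matrix (Fin (n i)) (Fin (n i)) ℂ)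
    (σ : Nat.Primes → F ≃ₐ[ℚ] F) (c : Fin k → ℝ) (γ T : ℝ) (p : Nat.Primes) : centreTerm N ρ σ c γ T p =
      clF N σ (Phi1 ρ c) p * (((p : ℕ) : ℝ))⁻¹ * wr γ (Real.log (p : ℕ) / T) := by
  unfold centreTerm clF Phi1
  split_ifs with h
  · ring
  · have e1 : ∑ i, c i * (((ρ i (σ p) ^ 2).trace).re / 2) = (∑ i, c i * ((ρ i (σ p) ^ 2).trace).re) / 2 := by
      rw [Finset.sum_div]
      exact Finset.sum_congr rfl fun i _ => by ring
    rw [e1]
    have e2 : weight γ (Real.log (p : ℕ) / T) = wr γ (Real.log (p : ℕ) / T) := rfl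
    rw [e2, div_mul_eq_div_div]
    ring

theorem Phi1_class (ρ : ∀ i, (F ≃ₐ[ℚ] F) →* Matrix (Fin (n i)) (Fin (n i)) ℂ) (c : Fin k → ℝ) (g h : F ≃ₐ[ℚ] F) :
    Phi1 ρ c (h⁻¹ * g * h) = Phi1 ρ c g := by
  unfold Phi1
  refine Finset.sum_congr rfl fun i _ => ?_
  rw [tr_conj2]

theorem Phi2_class (ρ : ∀ i, (F ≃ₐ[ℚ] F) →* Matrix (Fin (n i)) (Fin (n i)) ℂ) (c : Fin k → ℝ) (g h : F ≃ₐ[ℚ] F) :
    Phi2 ρ c (h⁻¹ * g * h) = Phi2 ρ c g := by
  unfold Phi2
  congr 1
  refine Finset.sum_congr rfl fun i _ => ?_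
  rw [tr_conj]

theorem Phi1_mean (ρ : ∀ i, (F ≃ₐ[ℚ] F) →* Matrix (Fin (n i)) (Fin (n i)) ℂ) (c : Fin k → ℝ) :
    (∑ g : F ≃ₐ[ℚ] F, Phi1 ρ c g) / Nat.card (F ≃ₐ[ℚ] F) = ∑ i, c i * (index (ρ i) / 2) := by
  unfold Phi1 index
  rw [Finset.sum_comm, Finset.sum_div]
  refine Finset.sum_congr rfl fun i _ => ?_
  rw [← Finset.mul_sum, ← Finset.sum_div]
  ring

theorem var_nonneg (ρ : ∀ i, (F ≃ₐ[ℚ] F) →* Matrix (Fin (n i)) (Fin (n i)) ℂ) (c : Fin k → ℝ) :
    0 ≤ variance ρ c := by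
  unfold variance
  positivity

theorem var_single (ρ : ∀ i, (F ≃ₐ[ℚ] F) →* Matrix (Fin (n i)) (Fin (n i)) ℂ) (i : Fin k) (hi : 0 < n i) :
    0 < variance ρ (Pi.single i 1) := by
  unfold variance
  have hc : (0 : ℝ) < Nat.card (F ≃ₐ[ℚ] F) := by exact_mod_cast Nat.card_pos
  refine div_pos ?_ hc
  have h1 : (∑ j, (Pi.single i (1 : ℝ) : Fin k → ℝ) j * ((ρ j (1 : F ≃ₐ[ℚ] F)).trace).re) ^ 2 ≤
      ∑ g : F ≃ₐ[ℚ] F, (∑ j, (Pi.single i (1 : ℝ) : Fin k → ℝ) j * ((ρ j g).trace).re) ^ 2 :=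
    Finset.single_le_sum (f := fun g : F ≃ₐ[ℚ] F => (∑ j, (Pi.single i (1 : ℝ) : Fin k → ℝ) j * ((ρ j g).trace).re) ^ 2)
      (fun g _ => sq_nonneg _) (Finset.mem_univ 1)
  refine lt_of_lt_of_le ?_ h1
  have e1 : ∑ j, (Pi.single i (1 : ℝ) : Fin k → ℝ) j * ((ρ j (1 : F ≃ₐ[ℚ] F)).trace).re = n i := by
    rw [Finset.sum_eq_single i]
    · rw [Pi.single_eq_same, map_one, Matrix.trace_one]
      simp
    · intro j _ hj
      rw [Pi.single_eq_of_ne hj, zero_mul]
    · intro h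
      exact absurd (Finset.mem_univ i) h
  rw [e1]
  have : (0 : ℝ) < n i := by exact_mod_cast hi
  positivity

variable [IsGalois ℚ F]

theorem moments_J (H : Eig N ρ σ μ) (hN : N ≠ 0) (hσ : ∀ p : Nat.Primes, ¬ (p : ℕ) ∣ N → IsFrobenius (σ p) p)
    (c : Fin k → ℝ) (γ : ℝ) (ζ : ℂ) (ε : ℝ) (hε : 0 < ε) : ∀ᶠ T : ℝ in atTop, ∀ᶠ X : ℕ in atTop,
      ‖(∑ E ∈ family X, Complex.exp (ζ * ((normalised N ρ σ c γ T E : ℝ) : ℂ))) / (family X).card -
        Complex.exp (variance ρ c * ζ ^ 2 / 2)‖ < ε := by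
  have D := FnG_W (w := wJ c) (μ := MJ μ) (fun p x => H.bd x.1 p x.2) (le_refl _)
  rw [kap_J H, nu_J H] at D
  have A := (as2_cl hN (σ := σ) hσ (Phi1_class ρ c) (Phi2_class ρ c) γ).1
  have h1 := (Metric.tendsto_nhds.1 (D.curry2 A ζ)) ε hε
  rw [Filter.eventually_curry_iff] at h1
  filter_upwards [h1, eventually_gt_atTop (0 : ℝ)] with T h2 hT
  filter_upwards [h2] with X hX
  rw [dist_eq_norm] at hX
  refine lt_of_eq_of_lt ?_ hX
  congr 2
  unfold Pool.Agent.X278.AV.meanC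
  rw [card_eq, family_eq, Finset.sum_map]
  congr 1
  refine Finset.sum_congr rfl fun x _ => ?_
  congr 2
  show ((normalised N ρ σ c γ T (x 0, x 1) : ℝ) : ℂ) = _
  unfold normalised YG2 cen centre
  rw [comb_eq H c γ x hT, tsum_congr fun p => centre_eq N ρ σ c γ T p]

theorem normal_J (H : Eig N ρ σ μ) (hN : N ≠ 0) (hσ : ∀ p : Nat.Primes, ¬ (p : ℕ) ∣ N → IsFrobenius (σ p) p)
    (c : Fin k → ℝ) (hc : 0 < variance ρ c) (γ v : ℝ) :
    FirstX (fun X T => proportion X fun E => normalised N ρ σ c γ T E ≤ v * √(variance ρ c)) (Phi v) := by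
  intro ε hε
  have D := FnG_W (w := wJ c) (μ := MJ μ) (fun p x => H.bd x.1 p x.2) (le_refl _)
  rw [kap_J H, nu_J H] at D
  have A := (as2_cl hN (σ := σ) hσ (Phi1_class ρ c) (Phi2_class ρ c) γ).1
  set V : NNReal := ⟨variance ρ c, hc.le⟩ with hV
  have hV0 : V ≠ 0 := by
    intro h
    have : (V : ℝ) = 0 := by rw [h]; rfl
    rw [hV] at this
    exact hc.ne' this
  have A' : As2 (fun p : Nat.Primes => ((p : ℕ) : ℝ)) (clF N σ (Phi1 ρ c)) (clF N σ (Phi2 ρ c)) γ (V : ℝ) := A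
  have h1 := D.gauss2 A' hV0 (v * √(variance ρ c)) ε hε
  have e1 : (ProbabilityTheory.gaussianReal 0 V).real (Set.Iic (v * √(variance ρ c))) = Phi v := gauss_scale hV0 v
  rw [e1] at h1
  filter_upwards [h1, eventually_gt_atTop (0 : ℝ)] with T h2 hT
  filter_upwards [h2] with X hX
  show |proportion X (fun E => normalised N ρ σ c γ T E ≤ v * √(variance ρ c)) - Phi v| < ε
  rw [prop_eq]
  refine lt_of_eq_of_lt ?_ hX
  congr 3
  refine congrArg _ (congrArg Finset.card (Finset.filter_congr fun x _ => ?_))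
  unfold normalised cen centre
  rw [comb_eq H c γ x hT, tsum_congr fun p => centre_eq N ρ σ c γ T p]

end

/-- **The joint normal law for Artin twists, and the minimalist conjecture as an interchange of two limits.** -/
theorem result {F : Type} [Field F] [NumberField F] [IsGalois ℚ F] [DecidableEq F] {k : ℕ} {n : Fin k → ℕ} (N : ℕ)
    (hN : N ≠ 0) (ρ : ∀ i, (F ≃ₐ[ℚ] F) →* Matrix (Fin (n i)) (Fin (n i)) ℂ) (σ : Nat.Primes → F ≃ₐ[ℚ] F)
    (hσ : ∀ p : Nat.Primes, ¬ (p : ℕ) ∣ N → IsFrobenius (σ p) p) (γ : ℝ) (hγ : Real.pi / 2 < γ) :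
    -- absolute convergence
    (∀ (i : Fin k) (E : ℤ × ℤ) (T : ℝ), 0 < T → Summable fun p : Nat.Primes =>
      |Real.log ‖localDet N (ρ i) σ E.1 E.2 1 p‖ * weight γ (Real.log (p : ℕ) / T)|) ∧
    (∀ (c : Fin k → ℝ) (T : ℝ), 0 < T → Summable fun p : Nat.Primes => |centreTerm N ρ σ c γ T p|) ∧
    -- A. the centre
    (∀ c : Fin k → ℝ, Tendsto (fun T : ℝ => centre N ρ σ c γ T / Real.log T) atTop (𝓝 (∑ i, c i * (index (ρ i) / 2)))) ∧
    -- B. the joint normal law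
    (∀ c : Fin k → ℝ, 0 < variance ρ c → ∀ v : ℝ,
      FirstX (fun X T => proportion X fun E => normalised N ρ σ c γ T E ≤ v * √(variance ρ c)) (Phi v)) ∧
    -- C. the exponential moments
    (∀ (c : Fin k → ℝ) (ζ : ℂ) (ε : ℝ), 0 < ε → ∀ᶠ T : ℝ in atTop, ∀ᶠ X : ℕ in atTop,
      ‖(∑ E ∈ family X, Complex.exp (ζ * ((normalised N ρ σ c γ T E : ℝ) : ℂ))) / (family X).card -
        Complex.exp (variance ρ c * ζ ^ 2 / 2)‖ < ε) ∧
    -- D. the levels
    (∀ i : Fin k, 0 < n i → ∀ t : ℝ, (t < index (ρ i) / 2 → FirstX (level N (ρ i) σ γ t) 0) ∧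
      (index (ρ i) / 2 < t → FirstX (level N (ρ i) σ γ t) 1)) ∧
    -- E. the other order of the limits
    ∀ i : Fin k, 0 < n i → ∀ L : ℤ × ℤ → ℂ → ℂ,
      (∀ E : ℤ × ℤ, 4 * E.1 ^ 3 + 27 * E.2 ^ 2 ≠ 0 → IsLSeries N (ρ i) σ E.1 E.2 (L E) ∧
        ∀ x : ℝ, 1 ≤ x → x ≤ 3 / 2 → MeromorphicAt (L E) (x : ℂ)) →
      ∃ m : ℤ × ℤ → ℤ,
        (∀ E : ℤ × ℤ, 4 * E.1 ^ 3 + 27 * E.2 ^ 2 ≠ 0 → meromorphicOrderAt (L E) 1 = m E ∧
          Tendsto (fun T : ℝ => S N (ρ i) σ γ E T / Real.log T) atTop (𝓝 (m E : ℝ))) ∧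
        (∀ t : ℝ, (∀ j : ℤ, (j : ℝ) ≠ t) → ∀ X : ℕ,
          Tendsto (level N (ρ i) σ γ t X) atTop (𝓝 (proportion X fun E => (m E : ℝ) ≤ t))) ∧
        -- F. the interchange of the limits
        (∀ (j : ℤ) (t : ℝ), (j : ℝ) < t → t < j + 1 → index (ρ i) / 2 < t →
          (Tendsto (fun X => proportion X fun E => m E ≤ j) atTop (𝓝 1) ↔ Interchange (level N (ρ i) σ γ t))) ∧
        ((∀ E : ℤ × ℤ, 4 * E.1 ^ 3 + 27 * E.2 ^ 2 ≠ 0 → 0 ≤ m E) →
          (∀ t : ℝ, index (ρ i) / 2 < t → t < 0 → ¬ Interchange (level N (ρ i) σ γ t))) ∧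
        -- G. the rules for the multiplicity of `ρ_i`
        ((∀ E : ℤ × ℤ, 4 * E.1 ^ 3 + 27 * E.2 ^ 2 ≠ 0 → m E = multiplicity (ρ i) E.1 E.2) →
          (index (ρ i) ≤ 0 → ∀ t : ℝ, 0 < t → t < 1 →
            (Tendsto (fun X => proportion X fun E => multiplicity (ρ i) E.1 E.2 = 0) atTop (𝓝 1) ↔
              Interchange (level N (ρ i) σ γ t))) ∧
          (index (ρ i) = 1 → ∀ t : ℝ, 1 < t → t < 2 →
            (Tendsto (fun X => proportion X fun E => (Even (m E) → multiplicity (ρ i) E.1 E.2 = 0) ∧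
                (Odd (m E) → multiplicity (ρ i) E.1 E.2 = 1)) atTop (𝓝 1) ↔
              Interchange (level N (ρ i) σ γ t)))) := by
  classical
  obtain ⟨μ, H⟩ := exists_eig N ρ σ
  have hpt : ∀ (E : ℤ × ℤ), E = ((![E.1, E.2] : Fin 2 → ℤ) 0, (![E.1, E.2] : Fin 2 → ℤ) 1) := fun E => rfl
  have hcen : ∀ c : Fin k → ℝ, Tendsto (fun T : ℝ => centre N ρ σ c γ T / Real.log T) atTop
      (𝓝 (∑ i, c i * (index (ρ i) / 2))) := by
    intro c
    have h1 := (as2_cl hN (σ := σ) hσ (Phi1_class ρ c) (Phi2_class ρ c) γ).2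
    rw [Phi1_mean] at h1
    refine h1.congr fun T => ?_
    unfold cen centre
    rw [tsum_congr fun p => centre_eq N ρ σ c γ T p]
  have hlev : ∀ i : Fin k, 0 < n i → ∀ t : ℝ, (t < index (ρ i) / 2 → FirstX (level N (ρ i) σ γ t) 0) ∧
      (index (ρ i) / 2 < t → FirstX (level N (ρ i) σ γ t) 1) := by
    intro i hi t
    have h1 := hcen (Pi.single i 1)
    have e1 : ∑ j, (Pi.single i (1 : ℝ) : Fin k → ℝ) j * (index (ρ j) / 2) = index (ρ i) / 2 := by
      rw [Finset.sum_eq_single i]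
      · rw [Pi.single_eq_same, one_mul]
      · intro j _ hj
        rw [Pi.single_eq_of_ne hj, zero_mul]
      · intro h
        exact absurd (Finset.mem_univ i) h
    rw [e1] at h1
    refine levels_of (f := fun E T => S N (ρ i) σ γ E T) (a := centre N ρ σ (Pi.single i 1) γ)
      (V := variance ρ (Pi.single i 1)) (fun v => ?_) h1 t
    have h2 := normal_J H hN hσ (Pi.single i 1) (var_single ρ i hi) γ v
    have e2 : ∀ (E : ℤ × ℤ) (T : ℝ), ∑ j, (Pi.single i (1 : ℝ) : Fin k → ℝ) j * S N (ρ j) σ γ E T =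
        S N (ρ i) σ γ E T := by
      intro E T
      rw [Finset.sum_eq_single i]
      · rw [Pi.single_eq_same, one_mul]
      · intro j _ hj
        rw [Pi.single_eq_of_ne hj, zero_mul]
      · intro h
        exact absurd (Finset.mem_univ i) h
    unfold normalised at h2
    simp only [e2] at h2
    exact h2
  refine ⟨fun i E T hT => ?_, fun c T hT => ?_, hcen, fun c hc v => normal_J H hN hσ c hc γ v,
    fun c ζ ε hε => moments_J H hN hσ c γ ζ ε hε, hlev, fun i hi L hL => ?_⟩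
  · refine (S_eq H i γ ![E.1, E.2] hT).1.congr fun p => ?_
    rw [← S_term H i γ ![E.1, E.2] T p]
    rfl
  · have h1 := (as2_cl hN (σ := σ) hσ (Phi1_class ρ c) (Phi2_class ρ c) γ).1.s1 T hT
    refine h1.abs.congr fun p => ?_
    rw [centre_eq]
  · have hgr : ∀ E : ℤ × ℤ, 4 * E.1 ^ 3 + 27 * E.2 ^ 2 ≠ 0 → ∃ m : ℤ, meromorphicOrderAt (L E) 1 = m ∧
        Tendsto (fun T : ℝ => S N (ρ i) σ γ E T / Real.log T) atTop (𝓝 (m : ℝ)) := by
      intro E hE
      obtain ⟨h1, h2⟩ := hL E hE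
      obtain ⟨m, hm1, hm2⟩ := SA_growth E.1 E.2 (H.bd i) (F := L E) (fun s hs => by
        have h4 := h1 s hs
        have e1 : (fun p => (localDet N (ρ i) σ E.1 E.2 s p)⁻¹) =
            Pool.Agent.X287.CR.fac Pool.Agent.X287.CR.pq (tq E.1 E.2 (μ i)) s :=
          funext fun p => localDet_inv (H.zero i) (H.det i) E.1 E.2 s p
        rw [e1] at h4
        exact h4) h2 hγ
      refine ⟨m, hm1, ?_⟩
      refine hm2.lim.congr' ?_
      filter_upwards [eventually_gt_atTop (0 : ℝ)] with T hT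
      have e2 : S N (ρ i) σ γ E T = (SS (fA (μ i)) γ T ![E.1, E.2]).re := by
        rw [(re_SS (sysA (H.bd i)) γ hT ![E.1, E.2]).2]
        exact (S_eq H i γ ![E.1, E.2] hT).2
      rw [e2]
      rfl
    choose! m hm1 hm2 using hgr
    have hlim : ∀ t : ℝ, (∀ j : ℤ, (j : ℝ) ≠ t) → ∀ X : ℕ,
        Tendsto (level N (ρ i) σ γ t X) atTop (𝓝 (proportion X fun E => (m E : ℝ) ≤ t)) := by
      intro t ht X
      have h1 : ∀ E ∈ family X, ∀ᶠ T : ℝ in atTop, (S N (ρ i) σ γ E T ≤ t * Real.log T ↔ (m E : ℝ) ≤ t) := by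
        intro E hE
        have h2 := hm2 E (disc_of_mem hE)
        rcases lt_or_gt_of_ne (ht (m E)) with h3 | h3
        · filter_upwards [h2.eventually_lt_const h3, eventually_gt_atTop (1 : ℝ)] with T a1 a2
          have hl : 0 < Real.log T := Real.log_pos a2
          rw [div_lt_iff₀ hl] at a1
          exact ⟨fun _ => h3.le, fun _ => a1.le⟩
        · filter_upwards [h2.eventually_const_lt h3, eventually_gt_atTop (1 : ℝ)] with T a1 a2
          have hl : 0 < Real.log T := Real.log_pos a2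
          rw [lt_div_iff₀ hl] at a1
          exact ⟨fun h => absurd h (not_le.2 a1), fun h => absurd h (not_le.2 h3)⟩
      have h2 : ∀ᶠ T : ℝ in atTop, ∀ E ∈ family X, (S N (ρ i) σ γ E T ≤ t * Real.log T ↔ (m E : ℝ) ≤ t) :=
        (Filter.eventually_all_finset (family X)).2 h1
      refine tendsto_const_nhds.congr' ?_
      filter_upwards [h2] with T hT
      exact (prop_congr X hT).symm
    have hF : ∀ (j : ℤ) (t : ℝ), (j : ℝ) < t → t < j + 1 → index (ρ i) / 2 < t →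
        (Tendsto (fun X => proportion X fun E => m E ≤ j) atTop (𝓝 1) ↔ Interchange (level N (ρ i) σ γ t)) := by
      intro j t h1 h2 h3
      have hnint : ∀ l : ℤ, (l : ℝ) ≠ t := by
        intro l hl
        rw [← hl] at h1 h2
        have a1 : j < l := by exact_mod_cast h1
        have a2 : l < j + 1 := by exact_mod_cast h2
        omega
      have e1 : (fun X => proportion X fun E => (m E : ℝ) ≤ t) = fun X => proportion X fun E => m E ≤ j := by
        funext X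
        refine prop_congr X fun E _ => ?_
        constructor
        · intro h
          by_contra h4
          have h5 : j + 1 ≤ m E := by omega
          have h6 : ((j : ℝ) + 1) ≤ m E := by exact_mod_cast h5
          linarith
        · intro h
          have h6 : (m E : ℝ) ≤ j := by exact_mod_cast h
          linarith
      have h4 := firstT_iff (P := level N (ρ i) σ γ t) (hlim t hnint) 1
      rw [e1] at h4
      rw [h4]
      have h5 := (hlev i hi t).2 h3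
      constructor
      · intro h
        exact ⟨1, h5, h⟩
      · rintro ⟨ℓ, a1, a2⟩
        rwa [firstX_unique a1 h5] at a2
    refine ⟨m, fun E hE => ⟨hm1 E hE, hm2 E hE⟩, hlim, hF, fun h0 t h1 h2 => ?_, fun hmult => ?_⟩
    · rintro ⟨ℓ, a1, a2⟩
      rw [firstX_unique a1 ((hlev i hi t).2 h1)] at a2
      obtain ⟨X, hX, hne⟩ := ((a2 1 one_pos).and family_ne).exists
      have h3 : ∀ E ∈ family X, ∀ᶠ T : ℝ in atTop, ¬ S N (ρ i) σ γ E T ≤ t * Real.log T := by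
        intro E hE
        have h4 := hm2 E (disc_of_mem hE)
        have h5 : t < (m E : ℝ) := by
          have : (0 : ℝ) ≤ m E := by exact_mod_cast h0 E (disc_of_mem hE)
          linarith
        filter_upwards [h4.eventually_const_lt h5, eventually_gt_atTop (1 : ℝ)] with T b1 b2
        rw [lt_div_iff₀ (Real.log_pos b2)] at b1
        exact not_le.2 b1
      obtain ⟨T, b1, b2⟩ := (hX.and ((Filter.eventually_all_finset (family X)).2 h3)).exists
      have h5 : level N (ρ i) σ γ t X T = 0 := by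
        unfold level proportion
        rw [Finset.filter_false_of_mem b2]
        simp
      rw [h5] at b1
      norm_num at b1
    · have hp : ∀ E : ℤ × ℤ, 4 * E.1 ^ 3 + 27 * E.2 ^ 2 ≠ 0 → 0 ≤ m E := fun E hE => by
        rw [hmult E hE]
        exact Int.natCast_nonneg _
      constructor
      · intro hidx t h1 h2
        have h3 := hF 0 t (by exact_mod_cast h1) (by push_cast; linarith) (by linarith)
        rw [← h3]
        have e1 : (fun X => proportion X fun E => multiplicity (ρ i) E.1 E.2 = 0) =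
            fun X => proportion X fun E => m E ≤ 0 := by
          funext X
          refine prop_congr X fun E hE => ?_
          rw [hmult E (disc_of_mem hE)]
          constructor
          · intro h
            rw [h]
            norm_num
          · intro h
            have : multiplicity (ρ i) E.1 E.2 ≤ 0 := by exact_mod_cast h
            omega
        rw [e1]
      · intro hidx t h1 h2
        have h3 := hF 1 t (by exact_mod_cast h1) (by push_cast; linarith) (by rw [hidx]; linarith)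
        rw [← h3]
        have e1 : (fun X => proportion X fun E => (Even (m E) → multiplicity (ρ i) E.1 E.2 = 0) ∧
            (Odd (m E) → multiplicity (ρ i) E.1 E.2 = 1)) = fun X => proportion X fun E => m E ≤ 1 := by
          funext X
          refine prop_congr X fun E hE => ?_
          have h4 := hmult E (disc_of_mem hE)
          constructor
          · rintro ⟨a1, a2⟩
            rcases Int.even_or_odd (m E) with h5 | h5
            · have := a1 h5
              omega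
            · have := a2 h5
              omega
          · intro h
            have h5 := hp E (disc_of_mem hE)
            constructor
            · rintro ⟨r, hr⟩
              omega
            · rintro ⟨r, hr⟩
              omega
        rw [e1]

end Pool.Agent.Results.MP_775b3b_nt.JointNormalLaw
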