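import Mathlib
import Pool.Agent.X253.MN.A5

/-!
# The rule of the minimalist conjecture for positive proportions of the curves `y² + D y = x³` and all the
# representations of the Galois groups of `ℚ(ω, ∛p₁, …, ∛p_n)`

`E_D : y² + D y = x³` (the curve `x³ + y³ = D`), where `D` is squarefree, prime to `3`, not `±1` modulo `9`,
and exactly one prime `q ≡ 2` modulo `3` divides `D`.  Let `T` be a finite set of primes `p ≡ 1` modulo `9`
and `F = ℚ(ω, ∛p : p ∈ T)`, a Galois extension of `ℚ` of degree `2 · 3 ^ #T`; its group `G` is the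
generalized dihedral group of `(ℤ/3)^#T`.  For every complex representation `ρ` of `G` of finite dimension
let `n(ρ)` be the number of the characters of `Gal(F / ℚ(ω))` that occur in `ρ`; it is at most `2` when `ρ`
is irreducible.  Let `c = ∏ (1 - 3^{-i}) = 0.5601...`.

For at least the proportion `c ^ n(ρ)` of the `D` prime to `T`, `Hom_G(ρ, ℂ ⊗ E_D(F)) = 0` and the twisted
`L`-function `L(E_D, ρ, s)` is entire with `L(E_D, ρ, 1) ≠ 0`; so for every irreducible `ρ` the rule holds,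
with both multiplicities equal to `0`, for at least `31 %` of the `D`.  For at least the proportion
`c ^ (3 ^ #T)` of the `D` this is so for all `ρ` at the same time, and `E_D(F)` is finite.

The proof (`X253/MN/A1`-`A5`, `X253/JC`, `X253/C3/Rep1`-`Rep9`): the `χ`-part of `ℂ ⊗ E_D(F)`, `χ` a
character of `Gal(F / ℚ(ω))`, comes from the points over `ℚ(ω)` of the two cubic twists of `E_D` that belong
to `χ` and to its inverse; `L(E_D, ρ, s)` is a product of `L`-functions of cubic twists of `E_D` over `ℚ`;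
and the weighted Laplacian criteria for the finiteness of the points of the cubic twists `E_{D m}`, and
for `L(E_{D m}, 1) ≠ 0`, are asymptotically independent for the `3 ^ #T` twists.
-/

set_option autoImplicit false

namespace Pool.Agent.Results.MP_775b3b_nt.PureCubicTowers

open NumberField IsDedekindDomain WeierstrassCurve Filter
open scoped TensorProduct

/-- The curve `E_D : y² + D y = x³`. -/
def curve (D : ℕ) : WeierstrassCurve ℚ := ⟨0, 0, (D : ℚ), 0, 0⟩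

/-- `D` is cube-free, prime to `3`, not `±1` modulo `9`, and exactly one prime `q ≡ 2` modulo `3`
divides `D`. -/
def InClass (D : ℕ) : Prop :=
  (D ≠ 0 ∧ ¬ 3 ∣ D ∧ ∀ p : ℕ, p.Prime → ¬ p ^ 3 ∣ D) ∧ D % 9 ≠ 1 ∧ D % 9 ≠ 8 ∧
    ∃ q : ℕ, q.Prime ∧ q % 3 = 2 ∧ q ∣ D ∧ ∀ p : ℕ, p.Prime → p ∣ D → p ≠ q → p % 3 = 1

open scoped Classical in
/-- The squarefree `D ≤ X` of the class that are prime to the elements of `T`. -/
noncomputable def family (T : Finset ℕ) (X : ℕ) : Finset ℕ :=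
  (Finset.Icc 1 X).filter fun D => Squarefree D ∧ InClass D ∧ ∀ p ∈ T, ¬ p ∣ D

open scoped Classical in
/-- The lower proportion of the `D` with `P D` among the squarefree `D` of the class that are prime to
the elements of `T` is at least `r`. -/
def AtLeast (T : Finset ℕ) (r : ℝ) (P : ℕ → Prop) : Prop :=
  ∀ b : ℝ, b < r → ∀ᶠ X : ℕ in atTop,
    b * ((family T X).card : ℝ) ≤ (((family T X).filter P).card : ℝ)

/-- The constant `∏ (1 - 3^{-i}) = 0.5601...`. -/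
noncomputable def c : ℝ := ∏' i : ℕ, (1 - (1 / 3 : ℝ) ^ (i + 1))

/-- The number of points of `E_D` over `ZMod p`, with the point at infinity. -/
noncomputable def numPoints (D p : ℕ) : ℕ :=
  Nat.card {P : ZMod p × ZMod p // P.2 ^ 2 + (D : ZMod p) * P.2 = P.1 ^ 3} + 1

/-- `a_p = p + 1 - #E_D(ZMod p)`. -/
noncomputable def a (D p : ℕ) : ℤ := (p : ℤ) + 1 - numPoints D p

section

variable {F : Type} [Field F] [NumberField F]

/-- `u` is a place of `F` over the prime number `p` and `σ` is an arithmetic Frobenius automorphism at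
`u`: `σ y` is `y ^ p` modulo `u` for all integers `y` of `F`. -/
def IsFrobenius (σ : F ≃ₐ[ℚ] F) (p : ℕ) (u : HeightOneSpectrum (𝓞 F)) : Prop :=
  (p : 𝓞 F) ∈ u.asIdeal ∧ ∀ y : 𝓞 F, σ • y - y ^ p ∈ u.asIdeal

variable {V : Type} [AddCommGroup V] [Module ℂ V]

/-- The Euler factor `det(1 - a_p p⁻ˢ ρ(σ)⁻¹ + p^(1 - 2 s) ρ(σ)⁻²)⁻¹` of `E_D` twisted by `ρ`, `σ` a
Frobenius automorphism at `p`. -/
noncomputable def factor (D : ℕ) (ρ : (F ≃ₐ[ℚ] F) →* Module.End ℂ V) (σ : F ≃ₐ[ℚ] F) (p : ℕ)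
    (s : ℂ) : ℂ :=
  (LinearMap.det (1 - ((a D p : ℂ) * (p : ℂ) ^ (-s)) • ρ σ⁻¹ +
    ((p : ℂ) ^ (1 - 2 * s)) • (ρ σ⁻¹ * ρ σ⁻¹)))⁻¹

/-- The Euler product of `E_D` twisted by `ρ` over the primes that do not divide `M` has an entire
continuation `L` with `L(1) ≠ 0`; the Frobenius automorphisms can be chosen arbitrarily. -/
def TwistNonzero (M D : ℕ) (ρ : (F ≃ₐ[ℚ] F) →* Module.End ℂ V) : Prop :=
  (∀ p : ℕ, p.Prime → ∃ (u : HeightOneSpectrum (𝓞 F)) (σ : F ≃ₐ[ℚ] F), IsFrobenius σ p u) ∧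
  ∃ L : ℂ → ℂ, Differentiable ℂ L ∧ L 1 ≠ 0 ∧
    ∀ σ : ℕ → (F ≃ₐ[ℚ] F), (∀ p : ℕ, p.Prime → ¬ p ∣ M → ∃ u, IsFrobenius (σ p) p u) →
      ∀ s : ℂ, 3 / 2 < s.re →
        HasProd (fun p : {p : Nat.Primes // ¬ (p : ℕ) ∣ M} => factor D ρ (σ p.1) (p.1 : ℕ) s) (L s)

/-- The number of the characters of `Gal(F / ℚ(J))` that occur in `ρ`. -/
noncomputable def numChars (J : F) (ρ : (F ≃ₐ[ℚ] F) →* Module.End ℂ V) : ℕ :=
  Set.ncard {χ : MulAction.stabilizer (F ≃ₐ[ℚ] F) J → ℂ |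
    ∃ v : V, v ≠ 0 ∧ ∀ σ : MulAction.stabilizer (F ≃ₐ[ℚ] F) J, ρ σ v = χ σ • v}

/-- `ρ` has no invariant subspaces besides `0` and `V`. -/
def IsIrreducible (ρ : (F ≃ₐ[ℚ] F) →* Module.End ℂ V) : Prop :=
  ∀ W : Submodule ℂ V, (∀ σ, ∀ v ∈ W, ρ σ v ∈ W) → W = ⊥ ∨ W = ⊤

/-- `F = ℚ(ω, ∛p : p ∈ T)`, and `J` is the root of unity `ω`. -/
def Generated (F : Type) [Field F] [NumberField F] (J : F) (T : Finset ℕ) : Prop :=
  J ^ 2 + J + 1 = 0 ∧ ∃ r : ℕ → F, (∀ p ∈ T, r p ^ 3 = (p : F)) ∧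
    ∀ L : Subfield F, J ∈ L → (∀ p ∈ T, r p ∈ L) → L = ⊤

variable [DecidableEq F]

/-- The action of `σ` on `ℂ ⊗ E_D(F)`. -/
noncomputable def act (D : ℕ) (σ : F ≃ₐ[ℚ] F) :
    ℂ ⊗[ℤ] ((curve D).baseChange F).toAffine.Point →ₗ[ℂ]
      ℂ ⊗[ℤ] ((curve D).baseChange F).toAffine.Point :=
  (Affine.Point.map (W' := (curve D).toAffine) (σ : F →ₐ[ℚ] F)).toIntLinearMap.baseChange ℂ

/-- The multiplicity of `ρ` in `ℂ ⊗ E_D(F)` is zero: `Hom_G(ρ, ℂ ⊗ E_D(F)) = 0`. -/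
def MultiplicityZero (D : ℕ) (ρ : (F ≃ₐ[ℚ] F) →* Module.End ℂ V) : Prop :=
  ∀ f : V →ₗ[ℂ] ℂ ⊗[ℤ] ((curve D).baseChange F).toAffine.Point,
    (∀ σ v, f (ρ σ v) = act D σ (f v)) → f = 0

end

/-- **Positive proportions for all representations.** For every finite set `T` of primes `p ≡ 1` modulo
`9` and `F = ℚ(ω, ∛p : p ∈ T)`: `F / ℚ` is a Galois extension of degree `2 · 3 ^ #T`, with a generalized
dihedral group `G`; for every complex representation `ρ` of `G` of finite dimension at least the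
proportion `c ^ numChars ρ` of the squarefree `D` of the class prime to `T` have
`Hom_G(ρ, ℂ ⊗ E_D(F)) = 0` and `L(E_D, ρ, 1) ≠ 0`, and `numChars ρ ≤ 2` if `ρ` is irreducible; and for at
least the proportion `c ^ (3 ^ #T)` of them this holds for all `ρ`, and `E_D(F)` is finite. -/
theorem result : ∀ T : Finset ℕ, (∀ p ∈ T, p.Prime ∧ p % 9 = 1) →
    ∀ (F : Type) [Field F] [NumberField F] [DecidableEq F] (J : F), Generated F J T →
      (Module.finrank ℚ F = 2 * 3 ^ T.card ∧ IsGalois ℚ F ∧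
        ∃ c : F ≃ₐ[ℚ] F, c J = J ^ 2 ∧ c * c = 1 ∧
          ∀ a : F ≃ₐ[ℚ] F, a J = J → a ^ 3 = 1 ∧ c * a * c⁻¹ = a⁻¹) ∧
      (∀ (V : Type) [AddCommGroup V] [Module ℂ V] [FiniteDimensional ℂ V]
        (ρ : (F ≃ₐ[ℚ] F) →* Module.End ℂ V),
        (IsIrreducible ρ → numChars J ρ ≤ 2) ∧
        AtLeast T (c ^ numChars J ρ) fun D =>
          MultiplicityZero D ρ ∧ TwistNonzero (3 * D * ∏ p ∈ T, p) D ρ) ∧
      AtLeast T (c ^ (3 ^ T.card)) fun D =>
        Finite ((curve D).baseChange F).toAffine.Point ∧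
        ∀ (V : Type) [AddCommGroup V] [Module ℂ V] [FiniteDimensional ℂ V]
          (ρ : (F ≃ₐ[ℚ] F) →* Module.End ℂ V),
          MultiplicityZero D ρ ∧ TwistNonzero (3 * D * ∏ p ∈ T, p) D ρ := by
  intro T hT F _ _ _ J hF
  classical
  obtain ⟨hJ2, r, hr, hgen⟩ := hF
  obtain ⟨g1, g2, g3, g4, g5⟩ := Pool.Agent.X253.MN.mainT hT F J r hJ2 hr hgen
  have ha : ∀ D p : ℕ, a D p = Pool.Agent.W97.MT.ap (Pool.Agent.Y703.CT.WD (D : ℤ)) p := by
    intro D p
    unfold a numPoints Pool.Agent.W97.MT.ap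
    rw [Pool.Agent.Y696.CT.aff_eq]
    push_cast
    ring
  have hfamily : ∀ X, family T X = Pool.Agent.X253.JC.BB T X := fun X => by
    unfold family Pool.Agent.X253.JC.BB
    rfl
  -- the conclusion for one `D`
  have hone : ∀ (A : Finset (T → Fin 3)) (P : ℕ → Prop),
      (∀ D, InClass D → (∀ t ∈ T, ¬ t ∣ D) → Pool.Agent.X253.JC.GA T A D → P D) →
      AtLeast T (c ^ A.card) P := by
    intro A P hP b hb
    have hj := Pool.Agent.X253.JC.joint hT A
    have hev := (tendsto_order.1 hj).1 b hb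
    filter_upwards [hev] with X hX
    have hsub : (Pool.Agent.X253.JC.BB T X).filter (Pool.Agent.X253.JC.GA T A) ⊆
        (family T X).filter P := by
      intro D hD
      rw [Finset.mem_filter] at hD ⊢
      refine ⟨by rw [hfamily]; exact hD.1, ?_⟩
      have h1 := hD.1
      rw [← hfamily] at h1
      unfold family at h1
      rw [Finset.mem_filter] at h1
      exact hP D h1.2.2.1 h1.2.2.2 hD.2
    have hcard := Finset.card_le_card hsub
    have hcard' : (((Pool.Agent.X253.JC.BB T X).filter (Pool.Agent.X253.JC.GA T A)).card : ℝ) ≤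
        (((family T X).filter P).card : ℝ) := by exact_mod_cast hcard
    refine le_trans ?_ hcard'
    rw [hfamily]
    rcases (Nat.cast_nonneg (α := ℝ) (Pool.Agent.X253.JC.BB T X).card).eq_or_lt with h0 | h0
    · rw [← h0, mul_zero]
      exact Nat.cast_nonneg _
    · exact ((lt_div_iff₀ h0).1 hX).le
  have hrep : ∀ (D : ℕ) (V : Type) [AddCommGroup V] [Module ℂ V] [FiniteDimensional ℂ V]
      (ρ : (F ≃ₐ[ℚ] F) →* Module.End ℂ V),
      ((∀ f : V →ₗ[ℂ] ℂ ⊗[ℤ] ((Pool.Agent.X253.C3.Ec ((D : ℕ) : ℚ)).baseChange F).toAffine.Point,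
            (∀ σ v, f (ρ σ v) =
              Pool.Agent.X253.MN.act (Pool.Agent.X253.C3.Ec ((D : ℕ) : ℚ)) σ (f v)) → f = 0) ∧
          ∃ L : ℂ → ℂ, Differentiable ℂ L ∧ L 1 ≠ 0 ∧
            ∀ σ : ℕ → (F ≃ₐ[ℚ] F),
              (∀ p : ℕ, p.Prime → ¬ p ∣ 3 * D * ∏ q ∈ T, q → ∃ u,
                Pool.Agent.X253.C3.IsFrobQ (σ p) p u) →
              ∀ s : ℂ, 3 / 2 < s.re →
                HasProd (fun p : {p : Nat.Primes // ¬ (p : ℕ) ∣ 3 * D * ∏ q ∈ T, q} =>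
                  Pool.Agent.X253.C3.LFac ρ (σ p.1)
                    (Pool.Agent.W97.MT.ap (Pool.Agent.Y703.CT.WD (D : ℤ)) (p.1 : ℕ))
                    (p.1 : ℕ) s) (L s)) →
        MultiplicityZero D ρ ∧ TwistNonzero (3 * D * ∏ p ∈ T, p) D ρ := by
    intro D V _ _ _ ρ h
    obtain ⟨h1, L, k1, k2, k3⟩ := h
    refine ⟨fun f hf => h1 f hf, g3, L, k1, k2, fun σ hσ s hs => ?_⟩
    refine (k3 σ hσ s hs).congr_fun fun p => ?_
    unfold factor Pool.Agent.X253.C3.LFac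
    rw [ha]
  refine ⟨⟨g1, g2, ?_⟩, fun V _ _ _ ρ => ?_, ?_⟩
  · have hx : ∀ i : {p // p ∈ T}, r i.1 ^ 3 = algebraMap ℚ F ((i.1 : ℕ) : ℚ) := fun i => by
      rw [hr i.1 i.2, map_natCast]
    have hl : ∀ i : {p // p ∈ T}, ((i.1 : ℕ) : ℚ) ≠ 0 := fun i => by
      exact_mod_cast (hT i.1 i.2).1.ne_zero
    have hgen' : ∀ L : Subfield F, J ∈ L → (∀ i : {p // p ∈ T}, r i.1 ∈ L) → L = ⊤ :=
      fun L a1 a2 => hgen L a1 fun p hp => a2 ⟨p, hp⟩
    obtain ⟨c, hc⟩ := Pool.Agent.X253.C3.exists_c hJ2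
    exact ⟨c, hc, Pool.Agent.X253.C3.inv_c hJ2 hx hl hgen' hc, fun b hb =>
        ⟨Pool.Agent.X253.C3.cube_A hJ2 hx hl hgen' hb,
          Pool.Agent.X253.C3.conj_inv hJ2 hx hl hgen' hb hc⟩⟩
  · obtain ⟨A, hA, hirr, hmain⟩ := g5 V ρ
    have hA' : A.card = numChars J ρ := hA
    rw [← hA']
    exact ⟨hirr, hone A _ fun D hD hTD hG => hrep D V ρ (hmain D hD hTD hG)⟩
  · have hcard : (Finset.univ : Finset (T → Fin 3)).card = 3 ^ T.card := by
      rw [Finset.card_univ, Fintype.card_fun, Fintype.card_fin, Fintype.card_coe]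
    rw [← hcard]
    refine hone Finset.univ _ fun D hD hTD hG => ⟨g4 D hD hTD hG, fun V _ _ _ ρ => ?_⟩
    obtain ⟨A, hA, hirr, hmain⟩ := g5 V ρ
    exact hrep D V ρ (hmain D hD hTD fun ε _ => hG ε (Finset.mem_univ ε))

end Pool.Agent.Results.MP_775b3b_nt.PureCubicTowers
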