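import Pool.Agent.X278.AV.ArtE

/-!
# The minimalist conjecture for Artin twists and the interchange of two limits

Let `F / ℚ` be a finite Galois extension, `ρ : Gal(F/ℚ) → GL_n(ℂ)` a representation, `σ_p` a Frobenius automorphism at
a place of `F` over `p` for the primes `p ∤ N`, `N ≠ 0`. For fixed `γ > π/2` and a curve `E : y² = x³ + A x + B` put

`S_E(T) = ∑_{p ∤ 6 N (4 A³ + 27 B²)} log |det(1 - (a_p / p) ρ(σ_p) + (1 / p) ρ(σ_p)²)| · cos(γ u) / Γ(1 + u)`,
`u = log p / T`,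

an absolutely convergent sum over the primes: the logarithm of the product of the local factors of `L(E, ρ, s)` at `1`
with a smooth weight in place of a cut-off. For every single `E`, `S_E(T) / log T` tends to the order of vanishing
`m(E)` of `L(E, ρ, s)` at `s = 1` as `T → ∞`, with no hypothesis on zeros. Let `ν` be the average of `Re tr ρ(g)²` over
the Galois group; if `ρ` is irreducible, `ν` is the Frobenius-Schur indicator of `ρ`: `1`, `0` or `-1` according as `ρ`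
is orthogonal, not self-dual, or symplectic. Let `A(T) = ∑_{p ∤ N} Re tr ρ(σ_p)² / (2 p) · cos(γ u) / Γ(1 + u)`. We
order the elliptic curves over `ℚ` by height and show, with NO hypothesis on `L`-functions,

* `A(T) / log T → ν / 2` (Chebotarev's theorem);
* for every fixed `T` the average of `S_E(T)` has a limit `M(T)`, and `M(T) = A(T) + C + O(1/T)`;
* for large `T` all but a proportion `≤ V / (δ² log T)` of the curves satisfy `|S_E(T) / log T - ν/2| ≤ δ`;

and, if the functions `L(E, ρ, s)` are meromorphic on `[1, 3/2]`,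

* the average of the orders `m(E)` tends to `ν/2` IF AND ONLY IF the limits in `T` and in the height can be
  interchanged in the average of `S_E(T) / log T`;
* if `ρ` is symplectic (`ν < 0`) the limits can NOT be interchanged; if `ν = 0` and the limits can be interchanged,
  `L(E, ρ, 1) ≠ 0` for `100 %` of the curves; if `ν = 1`, half of the orders are odd and the limits can be interchanged,
  then `m(E) ∈ {0, 1}` for `100 %` of the curves: the rules of the minimalist conjecture.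
-/

set_option autoImplicit false

open Filter Topology Asymptotics NumberField IsDedekindDomain WeierstrassCurve Matrix
open scoped TensorProduct

namespace Pool.Agent.Results.MP_775b3b_nt.TwoOrdersOfLimits

/-- The prime `p` does not divide `6 N (4 A³ + 27 B²)`. -/
def Good (N : ℕ) (A B : ℤ) (p : ℕ) : Prop := ¬ (p : ℤ) ∣ 6 * N * (4 * A ^ 3 + 27 * B ^ 2)

/-- The number of affine points of `y² = x³ + A x + B` modulo `p`. -/
noncomputable def points (A B : ℤ) (p : ℕ) : ℕ :=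
  Nat.card {P : ZMod p × ZMod p // P.2 ^ 2 = P.1 ^ 3 + (A : ZMod p) * P.1 + (B : ZMod p)}

/-- The weight `cos(γu) / Γ(1 + u)`. -/
noncomputable def weight (γ u : ℝ) : ℝ := Real.cos (γ * u) / Real.Gamma (1 + u)

/-- The curves of height at most `X`: the pairs `(A, B)` with `4 A³ + 27 B² ≠ 0`, such that no prime `p` satisfies
both `p⁴ ∣ A` and `p⁶ ∣ B`, with `4 |A|³ ≤ X` and `27 B² ≤ X` (hence `|A|, |B| ≤ X`). -/
noncomputable def family (X : ℕ) : Finset (ℤ × ℤ) :=
  open Classical in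
  ((Finset.Icc (-(X : ℤ)) X) ×ˢ (Finset.Icc (-(X : ℤ)) X)).filter fun E =>
    4 * E.1 ^ 3 + 27 * E.2 ^ 2 ≠ 0 ∧ (∀ p : ℕ, p.Prime → ¬ ((p : ℤ) ^ 4 ∣ E.1 ∧ (p : ℤ) ^ 6 ∣ E.2)) ∧
      4 * |E.1| ^ 3 ≤ X ∧ 27 * E.2 ^ 2 ≤ X

/-- The average of a function over the curves of height at most `X`. -/
noncomputable def average (X : ℕ) (f : ℤ × ℤ → ℝ) : ℝ := (∑ E ∈ family X, f E) / (family X).card

/-- The proportion of the curves of height at most `X` with a property. -/
noncomputable def proportion (X : ℕ) (P : ℤ × ℤ → Prop) : ℝ :=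
  open Classical in (((family X).filter P).card : ℝ) / (family X).card

/-- The two iterated limits agree: `lim_X lim_T R(X, T) = lim_T lim_X R(X, T)`. -/
def LimitsCommute (R : ℕ → ℝ → ℝ) : Prop :=
  Tendsto (fun X : ℕ => limUnder atTop (R X)) atTop
    (𝓝 (limUnder atTop fun T : ℝ => limUnder atTop fun X : ℕ => R X T))

section

variable {F : Type} [Field F] [NumberField F] {n : ℕ}

/-- `σ` is an arithmetic Frobenius automorphism of `F` at a place over `p`. -/
def IsFrobenius (σ : F ≃ₐ[ℚ] F) (p : ℕ) : Prop :=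
  ∃ u : HeightOneSpectrum (𝓞 F), (p : 𝓞 F) ∈ u.asIdeal ∧ ∀ y : 𝓞 F, σ • y - y ^ p ∈ u.asIdeal

variable (N : ℕ) (ρ : (F ≃ₐ[ℚ] F) →* Matrix (Fin n) (Fin n) ℂ) (σ : Nat.Primes → F ≃ₐ[ℚ] F)

open Classical in
/-- `det(1 - a_p p^{-s} ρ(σ_p) + p^{1 - 2 s} ρ(σ_p)²)`, `a_p = p - #(affine points)`, for `p ∤ 6 N (4 A³ + 27 B²)`;
`1` otherwise. -/
noncomputable def localDet (A B : ℤ) (s : ℂ) (p : Nat.Primes) : ℂ :=
  if Good N A B p then
    (1 - ((((p : ℕ) : ℂ) - points A B p) * ((p : ℕ) : ℂ) ^ (-s)) • ρ (σ p) +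
      ((p : ℕ) : ℂ) ^ (1 - 2 * s) • ρ (σ p) ^ 2).det
  else 1

/-- The term `log |det(1 - (a_p / p) ρ(σ_p) + (1 / p) ρ(σ_p)²)| cos(γu) / Γ(1 + u)`, `u = log p / T`. -/
noncomputable def term (γ : ℝ) (A B : ℤ) (T : ℝ) (p : Nat.Primes) : ℝ :=
  Real.log ‖localDet N ρ σ A B 1 p‖ * weight γ (Real.log (p : ℕ) / T)

/-- `S_E(T)`. -/
noncomputable def S (γ : ℝ) (A B : ℤ) (T : ℝ) : ℝ := ∑' p, term N ρ σ γ A B T p

/-- `R(X, T)`, the average of `S_E(T) / log T` over the curves of height at most `X`. -/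
noncomputable def R (γ : ℝ) (X : ℕ) (T : ℝ) : ℝ := average X fun E => S N ρ σ γ E.1 E.2 T / Real.log T

/-- `L` is the incomplete twisted `L`-series `L(E, ρ, s)` for `Re s > 3/2`. -/
def IsLSeries (A B : ℤ) (L : ℂ → ℂ) : Prop :=
  ∀ s : ℂ, 3 / 2 < s.re → HasProd (fun p => (localDet N ρ σ A B s p)⁻¹) (L s)

/-- `ν`, the average of `Re tr ρ(g)²` over the Galois group. -/
noncomputable def index : ℝ := (∑ g : F ≃ₐ[ℚ] F, ((ρ g ^ 2).trace).re) / Nat.card (F ≃ₐ[ℚ] F)

open Classical in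
/-- The term `Re tr ρ(σ_p)² / (2 p) · cos(γu) / Γ(1 + u)`, `u = log p / T`, for `p ∤ N`; `0` otherwise. -/
noncomputable def centreTerm (γ T : ℝ) (p : Nat.Primes) : ℝ :=
  if (p : ℕ) ∣ N then 0 else ((ρ (σ p) ^ 2).trace).re / (2 * (p : ℕ)) * weight γ (Real.log (p : ℕ) / T)

/-- `A(T)`. -/
noncomputable def centre (γ T : ℝ) : ℝ := ∑' p : Nat.Primes, centreTerm N ρ σ γ T p

end

section

variable {F : Type} [Field F] [NumberField F] [DecidableEq F] {n : ℕ}

/-- The curve `y² = x³ + A x + B`. -/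
def curve (A B : ℤ) : WeierstrassCurve ℚ := ⟨0, 0, 0, (A : ℚ), (B : ℚ)⟩

/-- The action of `σ` on `ℂ ⊗ E(F)`. -/
noncomputable def act (A B : ℤ) (σ : F ≃ₐ[ℚ] F) :
    ℂ ⊗[ℤ] ((curve A B).baseChange F).toAffine.Point →ₗ[ℂ] ℂ ⊗[ℤ] ((curve A B).baseChange F).toAffine.Point :=
  (Affine.Point.map (W' := (curve A B).toAffine) (σ : F →ₐ[ℚ] F)).toIntLinearMap.baseChange ℂ

/-- `m_ρ(E)`, the dimension of `Hom_G(ρ, ℂ ⊗ E(F))`. -/
noncomputable def multiplicity (ρ : (F ≃ₐ[ℚ] F) →* Matrix (Fin n) (Fin n) ℂ) (A B : ℤ) : ℕ :=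
  Set.finrank ℂ {f : (Fin n → ℂ) →ₗ[ℂ] ℂ ⊗[ℤ] ((curve A B).baseChange F).toAffine.Point |
    ∀ (σ : F ≃ₐ[ℚ] F) (v : Fin n → ℂ), f (ρ σ *ᵥ v) = act A B σ (f v)}

end

open Pool.Agent.X278.AV Pool.Agent.X278.OP

theorem good_iff (N : ℕ) (A B : ℤ) (p : Nat.Primes) : Good N A B p ↔ ¬ (p : ℕ) ∣ N ∧ GoodQ A B p := by
  unfold Good GoodQ
  rw [← ZMod.intCast_zmod_eq_zero_iff_dvd, ← ZMod.natCast_eq_zero_iff]
  push_cast
  constructor
  · intro h
    refine ⟨fun h1 => h ?_, fun h1 => h ?_⟩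
    · rw [h1]; ring
    · have e1 : (6 : ZMod p) * N * (4 * (A : ZMod p) ^ 3 + 27 * (B : ZMod p) ^ 2) =
          N * (6 * (4 * (A : ZMod p) ^ 3 + 27 * (B : ZMod p) ^ 2)) := by ring
      rw [e1, h1, mul_zero]
  · rintro ⟨h1, h2⟩ h3
    have e1 : (6 : ZMod p) * N * (4 * (A : ZMod p) ^ 3 + 27 * (B : ZMod p) ^ 2) =
        N * (6 * (4 * (A : ZMod p) ^ 3 + 27 * (B : ZMod p) ^ 2)) := by ring
    rw [e1] at h3
    exact mul_ne_zero h1 h2 h3

section

variable {F : Type} [Field F] [NumberField F] {n : ℕ}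

theorem localDet_inv {N : ℕ} {ρ : (F ≃ₐ[ℚ] F) →* Matrix (Fin n) (Fin n) ℂ} {σ : Nat.Primes → F ≃ₐ[ℚ] F}
    {μ : Nat.Primes → Fin n → ℂ} (h0 : ∀ p : Nat.Primes, (p : ℕ) ∣ N → ∀ j, μ p j = 0)
    (h1 : ∀ p : Nat.Primes, ¬ (p : ℕ) ∣ N → ∀ x y : ℂ, (1 - (x + y) • ρ (σ p) + (x * y) • ρ (σ p) ^ 2).det =
      ∏ j, ((1 - x * μ p j) * (1 - y * μ p j))) (A B : ℤ) (s : ℂ) (p : Nat.Primes) :
    (localDet N ρ σ A B s p)⁻¹ = Pool.Agent.X287.CR.fac Pool.Agent.X287.CR.pq (tq A B μ) s p := by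
  rw [fac_tq]
  unfold localDet
  by_cases h : Good N A B p
  · obtain ⟨a1, a2⟩ := (good_iff N A B p).1 h
    rw [if_pos h]
    obtain ⟨b1, b2⟩ := qal_add_mul a2 s
    have e1 : points A B p = ptsQ A B p := rfl
    rw [e1, ← b1, ← b2, h1 p a1]
  · rw [if_neg h, inv_one]
    by_cases hp : (p : ℕ) ∣ N
    · simp [h0 p hp]
    · have h2 : ¬ GoodQ A B p := fun h3 => h ((good_iff N A B p).2 ⟨hp, h3⟩)
      unfold qal
      simp [h2]

theorem log_localDet {N : ℕ} {ρ : (F ≃ₐ[ℚ] F) →* Matrix (Fin n) (Fin n) ℂ} {σ : Nat.Primes → F ≃ₐ[ℚ] F}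
    {μ : Nat.Primes → Fin n → ℂ} (hμ : ∀ p j, ‖μ p j‖ ≤ 1) (h0 : ∀ p : Nat.Primes, (p : ℕ) ∣ N → ∀ j, μ p j = 0)
    (h1 : ∀ p : Nat.Primes, ¬ (p : ℕ) ∣ N → ∀ x y : ℂ, (1 - (x + y) • ρ (σ p) + (x * y) • ρ (σ p) ^ 2).det =
      ∏ j, ((1 - x * μ p j) * (1 - y * μ p j))) (A B : ℤ) (p : Nat.Primes) :
    Real.log ‖localDet N ρ σ A B 1 p‖ = fA μ p (red p ![A, B]) := by
  by_cases h : Good N A B p
  · obtain ⟨a1, a2⟩ := (good_iff N A B p).1 h
    rw [fA_eq a2 hμ]
    unfold localDet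
    rw [if_pos h]
    obtain ⟨b1, b2⟩ := qal_add_mul a2 1
    have e1 : points A B p = ptsQ A B p := rfl
    rw [e1, ← b1, ← b2, h1 p a1]
  · have e1 : localDet N ρ σ A B 1 p = 1 := by
      unfold localDet
      rw [if_neg h]
    rw [e1, norm_one, Real.log_one]
    by_cases hp : (p : ℕ) ∣ N
    · rw [fA_zero (h0 p hp)]
    · rw [fA_bad (fun h3 => h ((good_iff N A B p).2 ⟨hp, h3⟩))]

end

theorem family_eq (X : ℕ) : family X = (Fam eH ZH (abH X)).map (finTwoArrowEquiv ℤ).toEmbedding := by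
  classical
  ext E
  rw [Finset.mem_map_equiv]
  unfold family Fam
  rw [Finset.mem_filter, Finset.mem_filter, mem_Box, Finset.mem_product, Finset.mem_Icc, Finset.mem_Icc]
  have e0 : (finTwoArrowEquiv ℤ).symm E 0 = E.1 := rfl
  have e1 : (finTwoArrowEquiv ℤ).symm E 1 = E.2 := rfl
  have h1 : (∀ j, |(finTwoArrowEquiv ℤ).symm E j| ≤ (abH X j : ℤ)) ↔ (4 * |E.1| ^ 3 ≤ X ∧ 27 * E.2 ^ 2 ≤ (X : ℤ)) := by
    rw [Fin.forall_fin_two, e0, e1]
    have h2 : (|E.1| ≤ (abH X 0 : ℤ)) ↔ 4 * |E.1| ^ 3 ≤ (X : ℤ) := by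
      have h3 : abH X 0 = aH X := rfl
      rw [h3, Int.abs_eq_natAbs]
      have := le_aH (X := X) (n := E.1.natAbs)
      exact_mod_cast this
    have h4 : (|E.2| ≤ (abH X 1 : ℤ)) ↔ 27 * E.2 ^ 2 ≤ (X : ℤ) := by
      have h3 : abH X 1 = bH X := rfl
      rw [h3, ← sq_abs E.2, Int.abs_eq_natAbs]
      have := le_bH (X := X) (n := E.2.natAbs)
      exact_mod_cast this
    rw [h2, h4]
  have h2 : Pool.Agent.X278.AV.Min eH ((finTwoArrowEquiv ℤ).symm E) ↔
      (∀ p : ℕ, p.Prime → ¬ ((p : ℤ) ^ 4 ∣ E.1 ∧ (p : ℤ) ^ 6 ∣ E.2)) := by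
    unfold Pool.Agent.X278.AV.Min
    refine forall_congr' fun p => forall_congr' fun _ => not_congr ?_
    rw [Fin.forall_fin_two, e0, e1]
    rfl
  have h3 : ZH ((finTwoArrowEquiv ℤ).symm E) ↔ 4 * E.1 ^ 3 + 27 * E.2 ^ 2 = 0 := Iff.rfl
  rw [h1, h2, h3]
  constructor
  · rintro ⟨-, a1, a2, a3⟩
    exact ⟨a3, a2, a1⟩
  · rintro ⟨⟨a1, a2⟩, a3, a4⟩
    have b1 : |E.1| ≤ (X : ℤ) := by
      have h0 := abs_nonneg E.1
      have : |E.1| ≤ |E.1| ^ 3 := by
        rcases h0.eq_or_lt with h | h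
        · rw [← h]; norm_num
        · have : 1 ≤ |E.1| := h
          nlinarith [mul_nonneg h0 h0]
      nlinarith
    have b2 : |E.2| ≤ (X : ℤ) := by
      have h0 := abs_nonneg E.2
      have h5 := sq_abs E.2
      have : |E.2| ≤ |E.2| ^ 2 := by
        rcases h0.eq_or_lt with h | h
        · rw [← h]; norm_num
        · have : 1 ≤ |E.2| := h
          nlinarith
      nlinarith
    exact ⟨⟨abs_le.1 b1, abs_le.1 b2⟩, a4, a3, a1, a2⟩

theorem card_eq (X : ℕ) : (family X).card = (Fam eH ZH (abH X)).card := by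
  rw [family_eq, Finset.card_map]

theorem family_ne : ∀ᶠ X in atTop, (family X).Nonempty := by
  filter_upwards [fam_ne dataH] with X hX
  rw [← Finset.card_pos, card_eq]
  exact hX.card_pos

theorem disc_of_mem {X : ℕ} {E : ℤ × ℤ} (h : E ∈ family X) : 4 * E.1 ^ 3 + 27 * E.2 ^ 2 ≠ 0 := by
  classical
  unfold family at h
  exact (Finset.mem_filter.1 h).2.1

theorem prop_eq (X : ℕ) (P : ℤ × ℤ → Prop) [DecidablePred P] :
    proportion X P = (∑ E ∈ family X, if P E then (1 : ℝ) else 0) / (family X).card := by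
  unfold proportion
  congr 1
  rw [Finset.sum_boole]
  congr 2
  exact Finset.filter_congr_decidable _ _ _

theorem prop_not (X : ℕ) (hX : (family X).Nonempty) (P : ℤ × ℤ → Prop) :
    proportion X P = 1 - proportion X (fun E => ¬ P E) := by
  classical
  have hc : (0 : ℝ) < (family X).card := by exact_mod_cast hX.card_pos
  rw [prop_eq, prop_eq]
  have e1 : (1 : ℝ) = (∑ _E ∈ family X, (1 : ℝ)) / (family X).card := by
    rw [Finset.sum_const, nsmul_eq_mul, mul_one, div_self hc.ne']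
  nth_rewrite 2 [e1]
  rw [← sub_div, ← Finset.sum_sub_distrib]
  congr 1
  refine Finset.sum_congr rfl fun E _ => ?_
  by_cases h : P E <;> simp [h]

/-- average zero: almost all are zero -/
theorem all_zero {m : ℤ × ℤ → ℤ} (h0 : ∀ E : ℤ × ℤ, 4 * E.1 ^ 3 + 27 * E.2 ^ 2 ≠ 0 → 0 ≤ m E)
    (ha : Tendsto (fun X : ℕ => average X fun E => m E) atTop (𝓝 0)) :
    Tendsto (fun X => proportion X fun E => m E = 0) atTop (𝓝 1) := by
  classical
  have h1 : Tendsto (fun X => proportion X fun E => ¬ m E = 0) atTop (𝓝 0) := by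
    refine squeeze_zero (fun X => ?_) (fun X => ?_) ha
    · unfold proportion
      positivity
    · rw [prop_eq]
      unfold average
      gcongr with E hE
      have := h0 E (disc_of_mem hE)
      by_cases h : m E = 0
      · simp [h]
      · have h2 : 1 ≤ m E := by omega
        rw [if_pos h]
        show (1 : ℝ) ≤ (m E : ℝ)
        exact_mod_cast h2
  have h2 := h1.const_sub 1
  rw [sub_zero] at h2
  refine h2.congr' ?_
  filter_upwards [family_ne] with X hX
  exact (prop_not X hX _).symm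

/-- average one half, half of them odd: almost all are `0` or `1` -/
theorem zero_one {m : ℤ × ℤ → ℤ} (h0 : ∀ E : ℤ × ℤ, 4 * E.1 ^ 3 + 27 * E.2 ^ 2 ≠ 0 → 0 ≤ m E)
    (ho : Tendsto (fun X => proportion X fun E => Odd (m E)) atTop (𝓝 (1 / 2)))
    (ha : Tendsto (fun X : ℕ => average X fun E => m E) atTop (𝓝 (1 / 2))) :
    Tendsto (fun X => proportion X fun E => m E ≤ 1) atTop (𝓝 1) := by
  classical
  have h1 : Tendsto (fun X => proportion X fun E => ¬ m E ≤ 1) atTop (𝓝 0) := by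
    have h2 := ha.sub ho
    rw [sub_self] at h2
    refine squeeze_zero (fun X => ?_) (fun X => ?_) h2
    · unfold proportion
      positivity
    · rw [prop_eq, prop_eq]
      unfold average
      rw [← sub_div, ← Finset.sum_sub_distrib]
      gcongr with E hE
      have := h0 E (disc_of_mem hE)
      obtain ⟨k, hk⟩ := Int.eq_ofNat_of_zero_le this
      rw [hk]
      rcases Nat.lt_or_ge k 2 with h | h
      · interval_cases k <;> norm_num
      · have hk2 : (2 : ℝ) ≤ k := by exact_mod_cast h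
        have h3 : ¬ ((k : ℤ) ≤ 1) := by omega
        rw [if_pos h3]
        split_ifs <;> push_cast <;> linarith
  have h2 := h1.const_sub 1
  rw [sub_zero] at h2
  refine h2.congr' ?_
  filter_upwards [family_ne] with X hX
  exact (prop_not X hX _).symm

/-- **The minimalist conjecture for Artin twists: the two orders of limits.** -/
theorem result {F : Type} [Field F] [NumberField F] [IsGalois ℚ F] [DecidableEq F] {n : ℕ} (N : ℕ) (hN : N ≠ 0)
    (ρ : (F ≃ₐ[ℚ] F) →* Matrix (Fin n) (Fin n) ℂ) (σ : Nat.Primes → F ≃ₐ[ℚ] F)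
    (hσ : ∀ p : Nat.Primes, ¬ (p : ℕ) ∣ N → IsFrobenius (σ p) p) (γ : ℝ) (hγ : Real.pi / 2 < γ) :
    -- absolute convergence
    (∀ (A B : ℤ) (T : ℝ), 0 < T → Summable fun p => |term N ρ σ γ A B T p|) ∧
    (∀ T : ℝ, 0 < T → Summable fun p => |centreTerm N ρ σ γ T p|) ∧
    -- the centre
    Tendsto (fun T : ℝ => centre N ρ σ γ T / Real.log T) atTop (𝓝 (index ρ / 2)) ∧
    ∃ (M : ℝ → ℝ) (C V : ℝ),
      -- A. the average for fixed `T`
      (∀ T : ℝ, 0 < T → Tendsto (fun X : ℕ => average X fun E => S N ρ σ γ E.1 E.2 T) atTop (𝓝 (M T))) ∧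
      (fun T : ℝ => M T - (centre N ρ σ γ T + C)) =O[atTop] (fun T : ℝ => 1 / T) ∧
      -- B. almost all curves
      (∀ δ : ℝ, 0 < δ → ∀ᶠ T : ℝ in atTop, ∀ᶠ X : ℕ in atTop,
        proportion X (fun E => δ < |S N ρ σ γ E.1 E.2 T / Real.log T - index ρ / 2|) ≤ V / (δ ^ 2 * Real.log T)) ∧
      -- C. one curve; the averages of the orders
      ∀ L : ℤ × ℤ → ℂ → ℂ,
        (∀ E : ℤ × ℤ, 4 * E.1 ^ 3 + 27 * E.2 ^ 2 ≠ 0 → IsLSeries N ρ σ E.1 E.2 (L E) ∧
          ∀ x : ℝ, 1 ≤ x → x ≤ 3 / 2 → MeromorphicAt (L E) (x : ℂ)) →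
        ∃ m : ℤ × ℤ → ℤ,
          (∀ E : ℤ × ℤ, 4 * E.1 ^ 3 + 27 * E.2 ^ 2 ≠ 0 → meromorphicOrderAt (L E) 1 = m E ∧
            Tendsto (fun T : ℝ => S N ρ σ γ E.1 E.2 T / Real.log T) atTop (𝓝 (m E : ℝ))) ∧
          (∀ X : ℕ, Tendsto (R N ρ σ γ X) atTop (𝓝 (average X fun E => m E))) ∧
          (Tendsto (fun X : ℕ => average X fun E => m E) atTop (𝓝 (index ρ / 2)) ↔ LimitsCommute (R N ρ σ γ)) ∧
          -- D. no negative orders
          ((∀ E : ℤ × ℤ, 4 * E.1 ^ 3 + 27 * E.2 ^ 2 ≠ 0 → 0 ≤ m E) →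
            (index ρ < 0 → ¬ LimitsCommute (R N ρ σ γ)) ∧
            (LimitsCommute (R N ρ σ γ) →
              (index ρ = 0 → Tendsto (fun X => proportion X fun E => m E = 0) atTop (𝓝 1)) ∧
              (index ρ = 1 → Tendsto (fun X => proportion X fun E => Odd (m E)) atTop (𝓝 (1 / 2)) →
                Tendsto (fun X => proportion X fun E => m E ≤ 1) atTop (𝓝 1)))) ∧
          -- E. the multiplicities
          ((∀ E : ℤ × ℤ, 4 * E.1 ^ 3 + 27 * E.2 ^ 2 ≠ 0 → m E = multiplicity ρ E.1 E.2) →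
            LimitsCommute (R N ρ σ γ) →
              (index ρ = 0 → Tendsto (fun X => proportion X fun E => multiplicity ρ E.1 E.2 = 0) atTop (𝓝 1)) ∧
              (index ρ = 1 → Tendsto (fun X => proportion X fun E => Odd (multiplicity ρ E.1 E.2)) atTop (𝓝 (1 / 2)) →
                Tendsto (fun X => proportion X fun E => multiplicity ρ E.1 E.2 ≤ 1) atTop (𝓝 1))) := by
  classical
  obtain ⟨μ, hμ, hμ0, hμ1⟩ := exists_mu2 N ρ σ
  have W := sysA hμ
  have hlog := log_localDet hμ hμ0 (fun p hp => (hμ1 p hp).2.2)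
  -- the centre
  have hgc : ∀ (T : ℝ) (p : Nat.Primes), centreTerm N ρ σ γ T p = gA μ p * wr γ (Real.log (p : ℕ) / T) := by
    intro T p
    unfold centreTerm gA
    by_cases hp : (p : ℕ) ∣ N
    · rw [if_pos hp]
      simp [hμ0 p hp]
    · rw [if_neg hp, (hμ1 p hp).2.1, Complex.re_sum, Finset.sum_div]
      rfl
  have hcl : ∀ p : Nat.Primes, gA μ p = clF N σ (fun g => ((ρ g ^ 2).trace).re / 2) p * (((p : ℕ) : ℝ))⁻¹ := by
    intro p
    unfold gA clF
    by_cases hp : (p : ℕ) ∣ N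
    · rw [if_pos hp]
      simp [hμ0 p hp]
    · rw [if_neg hp, ← Finset.sum_div, ← Complex.re_sum, ← (hμ1 p hp).2.1]
      show _ = ((ρ (σ p) ^ 2).trace).re / 2 * _
      ring
  have hΦ : ∀ g h : F ≃ₐ[ℚ] F, (fun g : F ≃ₐ[ℚ] F => ((ρ g ^ 2).trace).re / 2) (h⁻¹ * g * h) =
      (fun g : F ≃ₐ[ℚ] F => ((ρ g ^ 2).trace).re / 2) g := fun g h => by
    show ((ρ (h⁻¹ * g * h) ^ 2).trace).re / 2 = ((ρ g ^ 2).trace).re / 2
    rw [tr_conj2]
  obtain ⟨A2, hA2⟩ := as2_cl hN (σ := σ) hσ (Φ₁ := fun g => ((ρ g ^ 2).trace).re / 2)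
    (Φ₂ := fun g => ((ρ g ^ 2).trace).re / 2) hΦ hΦ γ
  have hmean : (∑ g : F ≃ₐ[ℚ] F, ((ρ g ^ 2).trace).re / 2) / Nat.card (F ≃ₐ[ℚ] F) = index ρ / 2 := by
    unfold index
    rw [← Finset.sum_div]
    ring
  rw [hmean] at hA2
  have hcen : Tendsto (fun T : ℝ => centre N ρ σ γ T / Real.log T) atTop (𝓝 (index ρ / 2)) := by
    refine hA2.congr fun T => ?_
    unfold cen centre
    congr 1
    refine tsum_congr fun p => ?_
    rw [hgc, hcl]
  obtain ⟨C, hC⟩ := mean_centre hμ γ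
  have hC' : (fun T : ℝ => (AA eH (fA μ) γ T).re - (centre N ρ σ γ T + C)) =O[atTop] (fun T : ℝ => 1 / T) := by
    refine hC.congr_left fun T => ?_
    unfold centre
    rw [tsum_congr fun p => hgc T p]
  have hlim : Tendsto (fun T : ℝ => (AA eH (fA μ) γ T).re / Real.log T) atTop (𝓝 (index ρ / 2)) := by
    have h0 : Tendsto (fun T : ℝ => 1 / T) atTop (𝓝 (0 : ℝ)) := tendsto_const_nhds.div_atTop tendsto_id
    have h1 : Tendsto (fun T : ℝ => (AA eH (fA μ) γ T).re - (centre N ρ σ γ T + C)) atTop (𝓝 0) := hC'.trans_tendsto h0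
    have h2 := ((h1.add_const C).div_atTop Real.tendsto_log_atTop).add hcen
    rw [zero_add] at h2
    refine h2.congr fun T => ?_
    rw [← add_div]
    congr 1
    ring
  obtain ⟨V, hV⟩ := W.lln2 hlim
  have hS : ∀ (x : Fin 2 → ℤ) (T : ℝ), 0 < T → S N ρ σ γ (x 0) (x 1) T = (SS (fA μ) γ T x).re := by
    intro x T hT
    rw [(re_SS W γ hT x).2]
    unfold S term weight
    refine tsum_congr fun p => ?_
    rw [hlog]
    have : ![x 0, x 1] = x := by
      funext j
      fin_cases j <;> rfl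
    rw [this]
  have hfirst : ∀ T : ℝ, 0 < T →
      Tendsto (fun X : ℕ => average X fun E => S N ρ σ γ E.1 E.2 T) atTop (𝓝 (AA eH (fA μ) γ T).re) := by
    intro T hT
    have h1 := (Complex.continuous_re.tendsto _).comp (W.first γ hT)
    refine h1.congr fun X => ?_
    unfold average meanC
    simp only [Function.comp_apply]
    rw [card_eq, family_eq, Finset.sum_map, Complex.div_natCast_re, Complex.re_sum]
    congr 1
    exact Finset.sum_congr rfl fun x _ => (hS x T hT).symm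
  have hre : ∀ T : ℝ, 0 < T →
      Tendsto (fun X => R N ρ σ γ X T) atTop (𝓝 ((AA eH (fA μ) γ T).re / Real.log T)) := by
    intro T hT
    refine ((hfirst T hT).div_const (Real.log T)).congr fun X => ?_
    unfold R average
    rw [← Finset.sum_div]
    ring
  refine ⟨fun A B T hT => ?_, fun T hT => ?_, hcen, fun T => (AA eH (fA μ) γ T).re, C, V, hfirst, hC', ?_, fun L hL => ?_⟩
  · refine (re_SS W γ hT ![A, B]).1.congr fun p => ?_
    unfold term weight
    rw [hlog]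
  · refine (A2.s1 T hT).abs.congr fun p => ?_
    rw [hgc, hcl]
  · intro δ hδ
    filter_upwards [hV δ hδ, eventually_gt_atTop (0 : ℝ)] with T hT hT0
    filter_upwards [hT, family_ne] with X hX hne
    have hc : (0 : ℝ) < (family X).card := by exact_mod_cast hne.card_pos
    unfold proportion
    rw [div_le_iff₀ hc]
    rw [← card_eq] at hX
    refine le_trans ?_ hX
    have h1 : ((family X).filter fun E => δ < |S N ρ σ γ E.1 E.2 T / Real.log T - index ρ / 2|).card ≤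
        ((Fam eH ZH (abH X)).filter fun x => δ < |(SS (fA μ) γ T x).re / Real.log T - index ρ / 2|).card := by
      rw [family_eq, Finset.filter_map, Finset.card_map]
      refine Finset.card_le_card fun x hx => ?_
      rw [Finset.mem_filter] at hx ⊢
      refine ⟨hx.1, ?_⟩
      rw [← hS x T hT0]
      exact hx.2
    exact_mod_cast h1
  · have hgr : ∀ E : ℤ × ℤ, 4 * E.1 ^ 3 + 27 * E.2 ^ 2 ≠ 0 → ∃ m : ℤ, meromorphicOrderAt (L E) 1 = m ∧
        Tendsto (fun T : ℝ => S N ρ σ γ E.1 E.2 T / Real.log T) atTop (𝓝 (m : ℝ)) := by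
      intro E hE
      obtain ⟨h1, h2⟩ := hL E hE
      obtain ⟨m, hm1, hm2⟩ := SA_growth E.1 E.2 hμ (F := L E) (fun s hs => by
        have h4 := h1 s hs
        have e1 : (fun p => (localDet N ρ σ E.1 E.2 s p)⁻¹) = Pool.Agent.X287.CR.fac Pool.Agent.X287.CR.pq (tq E.1 E.2 μ) s :=
          funext fun p => localDet_inv hμ0 (fun p hp => (hμ1 p hp).2.2) E.1 E.2 s p
        rw [e1] at h4
        exact h4) h2 hγ
      refine ⟨m, hm1, ?_⟩
      refine hm2.lim.congr' ?_
      filter_upwards [eventually_gt_atTop (0 : ℝ)] with T hT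
      rw [show S N ρ σ γ E.1 E.2 T = (SS (fA μ) γ T ![E.1, E.2]).re from hS ![E.1, E.2] T hT]
      rfl
    choose! m hm1 hm2 using hgr
    have hX : ∀ X : ℕ, Tendsto (R N ρ σ γ X) atTop (𝓝 (average X fun E => m E)) := by
      intro X
      unfold average
      have h1 : Tendsto (fun T => ∑ E ∈ family X, S N ρ σ γ E.1 E.2 T / Real.log T) atTop
          (𝓝 (∑ E ∈ family X, (m E : ℝ))) :=
        tendsto_finsetSum _ fun E hE => hm2 E (disc_of_mem hE)
      exact h1.div_const _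
    have hiff : Tendsto (fun X : ℕ => average X fun E => m E) atTop (𝓝 (index ρ / 2)) ↔
        LimitsCommute (R N ρ σ γ) := by
      unfold LimitsCommute
      have h1 : (fun X : ℕ => limUnder atTop (R N ρ σ γ X)) = fun X : ℕ => average X fun E => m E := by
        funext X
        exact (hX X).limUnder_eq
      have h2 : (limUnder atTop fun T : ℝ => limUnder atTop fun X : ℕ => R N ρ σ γ X T) = index ρ / 2 := by
        refine Tendsto.limUnder_eq ?_
        refine hlim.congr' ?_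
        filter_upwards [eventually_gt_atTop (0 : ℝ)] with T hT
        exact (hre T hT).limUnder_eq.symm
      rw [h1, h2]
    have hD : (∀ E : ℤ × ℤ, 4 * E.1 ^ 3 + 27 * E.2 ^ 2 ≠ 0 → 0 ≤ m E) →
            (index ρ < 0 → ¬ LimitsCommute (R N ρ σ γ)) ∧
            (LimitsCommute (R N ρ σ γ) →
              (index ρ = 0 → Tendsto (fun X => proportion X fun E => m E = 0) atTop (𝓝 1)) ∧
              (index ρ = 1 → Tendsto (fun X => proportion X fun E => Odd (m E)) atTop (𝓝 (1 / 2)) →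
                Tendsto (fun X => proportion X fun E => m E ≤ 1) atTop (𝓝 1))) := by
      intro h0
      refine ⟨fun hν hcom => ?_, fun hcom => ⟨fun hν => ?_, fun hν ho => ?_⟩⟩
      · have h1 := hiff.2 hcom
        have h2 : (0 : ℝ) ≤ index ρ / 2 := ge_of_tendsto' h1 fun X => by
          unfold average
          refine div_nonneg (Finset.sum_nonneg fun E hE => ?_) (Nat.cast_nonneg _)
          exact_mod_cast h0 E (disc_of_mem hE)
        linarith
      · have h1 := hiff.2 hcom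
        rw [hν, zero_div] at h1
        exact all_zero h0 h1
      · have h1 := hiff.2 hcom
        rw [hν] at h1
        exact zero_one h0 ho h1
    refine ⟨m, fun E hE => ⟨hm1 E hE, hm2 E hE⟩, hX, hiff, hD, fun hmult hcom => ?_⟩
    obtain ⟨-, h2⟩ := hD fun E hE => by
      rw [hmult E hE]
      exact Int.natCast_nonneg _
    obtain ⟨h3, h4⟩ := h2 hcom
    have hcongr : ∀ (P : ℤ × ℤ → Prop) (Q : ℤ × ℤ → Prop),
        (∀ E : ℤ × ℤ, 4 * E.1 ^ 3 + 27 * E.2 ^ 2 ≠ 0 → (P E ↔ Q E)) →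
        (fun X => proportion X P) = fun X => proportion X Q := by
      intro P Q hPQ
      funext X
      unfold proportion
      congr 2
      exact congrArg Finset.card (Finset.filter_congr fun E hE => hPQ E (disc_of_mem hE))
    refine ⟨fun hν => ?_, fun hν ho => ?_⟩
    · have h5 := h3 hν
      rw [hcongr _ (fun E => multiplicity ρ E.1 E.2 = 0) fun E hE => by rw [hmult E hE]; exact Int.natCast_eq_zero] at h5
      exact h5
    · have h5 := h4 hν (by
        rw [hcongr _ (fun E => Odd (multiplicity ρ E.1 E.2)) fun E hE => by rw [hmult E hE]; exact Int.odd_coe_nat _]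
        exact ho)
      rw [hcongr _ (fun E => multiplicity ρ E.1 E.2 ≤ 1) fun E hE => by
        rw [hmult E hE]
        exact_mod_cast Iff.rfl] at h5
      exact h5

end Pool.Agent.Results.MP_775b3b_nt.TwoOrdersOfLimits
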