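import Mathlib
import Pool.Agent.W307.RT.Tors
import Pool.Agent.X257.CH.Main

/-!
# The characters of 2-power order of `Gal(ℚ(ζ_N)/ℚ)` and all quadratic twists, uniformly

Let `F = ℚ(ζ_N)`. The average of `4 ^ m_χ(E^D)` over the elliptic curves `E` over `ℚ` with full
rational 2-torsion of height at most `H` is at most `C * 128 ^ ω(D)`, for all characters `χ` of 2-power
order of `Gal(F/ℚ)`, all integers `D ≠ 0` and all `H`, with a constant `C` that depends only on `F`.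
Here `E^D` is the quadratic twist of `E` by `D` and `m_χ(E^D)` is the multiplicity of `χ` in
`E^D(F) ⊗ ℂ`, which is the multiplicity of `χ χ_D` in `E(F(√D)) ⊗ ℂ` for the quadratic character
`χ_D` of `ℚ(√D)`.
-/

namespace Pool.Agent.Results.MP_775b3b_nt.UniformCharacters

open Finset Filter WeierstrassCurve TensorProduct

/-- the curve `y² = x³ + A x + B` over `ℚ` -/
def E (A B : ℤ) : WeierstrassCurve ℚ := ⟨0, 0, 0, (A : ℚ), (B : ℚ)⟩

open Classical in
/-- The pairs `(A, B)` of integers such that `4 A³ + 27 B² ≠ 0`, there is no prime `p` with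
`p⁴ ∣ A` and `p⁶ ∣ B`, the height `max (4 |A|³) (27 B²)` is at most `H`, and `Z/2 x Z/2` embeds in
the group of the rational points of `y² = x³ + A x + B`. (The bounds `|A|, |B| ≤ H` follow from the
bound of the height. Every elliptic curve over `ℚ` is isomorphic to `E A B` for exactly one pair
with the first two properties.) -/
noncomputable def Fam (H : ℕ) : Finset (ℤ × ℤ) :=
  ((Icc (-(H : ℤ)) H) ×ˢ (Icc (-(H : ℤ)) H)).filter (fun c : ℤ × ℤ =>
    4 * c.1 ^ 3 + 27 * c.2 ^ 2 ≠ 0 ∧ 4 * |c.1| ^ 3 ≤ H ∧ 27 * c.2 ^ 2 ≤ H ∧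
    (∀ p : ℕ, p.Prime → ¬ ((p : ℤ) ^ 4 ∣ c.1 ∧ (p : ℤ) ^ 6 ∣ c.2)) ∧
    ∃ f : ZMod 2 × ZMod 2 →+ (E c.1 c.2).toAffine.Point, Function.Injective f)

open Classical in
/-- The subspace of the vectors `v` of `ℂ ⊗ W(F)` with `σ v = χ(σ) v` for all `σ`. -/
noncomputable def Part (F : Type) [Field F] [NumberField F] (χ : (F ≃ₐ[ℚ] F) →* ℂˣ)
    (W : WeierstrassCurve ℚ) : Submodule ℂ (ℂ ⊗[ℤ] (W.baseChange F).toAffine.Point) where
  carrier := {v | ∀ σ : F ≃ₐ[ℚ] F, LinearMap.baseChange ℂ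
    (Affine.Point.map (W' := W.toAffine) (σ : F →ₐ[ℚ] F)).toIntLinearMap v = ((χ σ : ℂˣ) : ℂ) • v}
  zero_mem' := fun σ => by rw [map_zero, smul_zero]
  add_mem' := fun {v w} hv hw σ => by rw [map_add, hv σ, hw σ, smul_add]
  smul_mem' := fun c v hv σ => by rw [map_smul, hv σ, smul_comm]

open Classical in
/-- The multiplicity of the one-dimensional representation `χ` in `W(F) ⊗ ℂ`. -/
noncomputable def mult (F : Type) [Field F] [NumberField F] (χ : (F ≃ₐ[ℚ] F) →* ℂˣ)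
    (W : WeierstrassCurve ℚ) : ℕ :=
  Module.finrank ℂ (Part F χ W)

lemma Fam_eq (H : ℕ) : Fam H = Pool.Agent.W307.RT.Cv 2 H := by
  classical
  unfold Fam Pool.Agent.W307.RT.Cv
  apply filter_congr
  intro c _
  have h : Pool.Agent.W307.RT.HasT 2 (Pool.Agent.W307.RT.Sh c.1 c.2) ↔
      ∃ f : ZMod 2 × ZMod 2 →+ (E c.1 c.2).toAffine.Point, Function.Injective f :=
    Pool.Agent.W307.RT.tors_iff
  rw [h]

lemma card_tendsto : Tendsto (fun H : ℕ => (Fam H).card) atTop atTop := by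
  simp only [Fam_eq]
  exact Pool.Agent.W307.RT.tendsto_of_low Pool.Agent.W672.FK.lowf

/-- **Theorem.** Let `F = ℚ(ζ_N)`. There is a constant `C` such that for all `χ : Gal(F/ℚ) → ℂˣ` of
2-power order (`χ = 1` is allowed), all integers `D ≠ 0` and all `H`, the average of
`4 ^ m_χ(E^D)` over the elliptic curves `E` over `ℚ` with full rational 2-torsion of height at most
`H` is at most `C * 128 ^ ω(D)`, where `E^D : y² = x³ + D² A x + D³ B` is the twist of
`E : y² = x³ + A x + B` by `D` and `ω(D)` is the number of the prime divisors of `D`. -/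
theorem result : Tendsto (fun H : ℕ => (Fam H).card) atTop atTop ∧
    ∀ (N : ℕ) [NeZero N] (F : Type) [Field F] [NumberField F] [IsCyclotomicExtension {N} ℚ F],
    ∃ C : ℝ, ∀ χ : (F ≃ₐ[ℚ] F) →* ℂˣ, (∃ k : ℕ, ∀ σ, χ σ ^ (2 ^ k) = 1) →
      ∀ D : ℤ, D ≠ 0 → ∀ H : ℕ,
      ∑ c ∈ Fam H, (4 : ℝ) ^ mult F χ (E (D ^ 2 * c.1) (D ^ 3 * c.2)) ≤
        C * 128 ^ D.natAbs.primeFactors.card * (Fam H).card := by
  classical
  refine ⟨card_tendsto, fun N _ F _ _ _ => ?_⟩
  obtain ⟨C, hC0, hC⟩ := Pool.Agent.X257.CH.avg_unif N (K := F)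
  refine ⟨C, fun χ hχ D hD H => ?_⟩
  rw [Fam_eq]
  exact hC χ hχ D hD H

end Pool.Agent.Results.MP_775b3b_nt.UniformCharacters
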